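import Pool.Agent.H48.FreeSub.Stage
import Pool.Agent.H48.FreeSub.FreeLat

/-!
# Disjunctive normal forms

An abstract device which maps an ordered set monotonically into a free lattice and, as an order
embedding, into the clopen algebra of a Cantor cube.
-/

namespace Pool.Agent.H74.FS

open Pool.Agent.H48.FreeSub

universe u v w

/-- Disjunctive normal form data for a relation `le` on `P`: every `p` has a finite set `Y p` of
finite sets of labels. -/
structure Dnf {P : Type u} (le : P → P → Prop) {Z : Type v} (A B : P → Set Z)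
    (Y : P → Set (Set Z)) : Prop where
  Yfin : ∀ p, (Y p).Finite
  Ymem : ∀ p, ∀ y ∈ Y p, y.Finite
  Amem : ∀ p, A p ∈ Y p
  meet : ∀ p, ∀ y ∈ Y p, (y ∩ B p).Nonempty
  mono : ∀ p q, le p q → ∀ y ∈ Y p, ∃ y' ∈ Y q, y' ⊆ y
  sep : ∀ p q, (A p ∩ B q).Nonempty → le p q

/-- The clopen set of a normal form. -/
def dset {Z : Type v} (Y : Set (Set Z)) : Set (Z → Bool) := {ω | ∃ y ∈ Y, ∀ z ∈ y, ω z = true}

theorem isClopen_dset {Z : Type v} {Y : Set (Set Z)} (hY : Y.Finite) (hy : ∀ y ∈ Y, y.Finite) :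
    IsClopen (dset Y) := by
  have h : dset Y = ⋃ y ∈ Y, ⋂ z ∈ y, (fun ω : Z → Bool => ω z) ⁻¹' {true} := by
    ext ω
    simp [dset]
  rw [h]
  apply hY.isClopen_biUnion
  intro y hyY
  apply (hy y hyY).isClopen_biInter
  intro z _
  exact (isClopen_discrete {true}).preimage (continuous_apply z)

theorem Dnf.dset_subset_iff {P : Type u} {le : P → P → Prop} {Z : Type v} {A B : P → Set Z}
    {Y : P → Set (Set Z)} (h : Dnf le A B Y) (p q : P) :
    dset (Y p) ⊆ dset (Y q) ↔ le p q := by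
  classical
  constructor
  · intro hs
    have h1 : (fun z => decide (z ∈ A p)) ∈ dset (Y p) :=
      ⟨A p, h.Amem p, fun z hz => by simpa using hz⟩
    obtain ⟨y, hy, hyA⟩ := hs h1
    obtain ⟨z, hz1, hz2⟩ := h.meet q y hy
    exact h.sep p q ⟨z, by simpa using hyA z hz1, hz2⟩
  · rintro hle ω ⟨y, hy, hω⟩
    obtain ⟨y', hy', hsub⟩ := h.mono p q hle y hy
    exact ⟨y', hy', fun z hz => hω z (hsub hz)⟩

/-- The element of the free lattice of a normal form. -/
noncomputable def dfl {Z : Type v} [Nonempty (FL Z)] (Y : Set (Set Z)) : FL Z :=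
  bsup ((fun y => binf (FL.gen '' y)) '' Y)

section

variable {P : Type u} {le : P → P → Prop} {Z : Type v} {A B : P → Set Z}
  {Y : P → Set (Set Z)} [Nonempty (FL Z)]

theorem Dnf.dfl_mono (h : Dnf le A B Y) {p q : P} (hle : le p q) : dfl (Y p) ≤ dfl (Y q) := by
  apply bsup_le ((h.Yfin p).image _) ⟨_, A p, h.Amem p, rfl⟩
  rintro _ ⟨y, hy, rfl⟩
  obtain ⟨y', hy', hsub⟩ := h.mono p q hle y hy
  refine le_trans ?_ (le_bsup ((h.Yfin q).image _) ⟨y', hy', rfl⟩)
  obtain ⟨z, hz, _⟩ := h.meet q y' hy'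
  apply le_binf ((h.Ymem q y' hy').image _) ⟨_, z, hz, rfl⟩
  rintro _ ⟨z', hz', rfl⟩
  exact binf_le ((h.Ymem p y hy).image _) ⟨z', hsub hz', rfl⟩

theorem Dnf.map_dfl (h : Dnf le A B Y) {C : Type w} [Lattice C] (f : LatticeHom (FL Z) C)
    (p : P) (c : C) (h1 : ∀ z ∈ A p, c ≤ f (FL.gen z)) (h2 : ∀ z ∈ B p, f (FL.gen z) ≤ c) :
    f (dfl (Y p)) = c := by
  apply le_antisymm
  · apply map_bsup_le f ((h.Yfin p).image _) ⟨_, A p, h.Amem p, rfl⟩
    rintro _ ⟨y, hy, rfl⟩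
    obtain ⟨z, hz1, hz2⟩ := h.meet p y hy
    exact (OrderHomClass.mono f (binf_le ((h.Ymem p y hy).image _) ⟨z, hz1, rfl⟩)).trans
      (h2 z hz2)
  · have h3 : c ≤ f (binf (FL.gen '' (A p))) := by
      obtain ⟨z, hz, _⟩ := h.meet p (A p) (h.Amem p)
      apply le_map_binf f ((h.Ymem p _ (h.Amem p)).image _) ⟨_, z, hz, rfl⟩
      rintro _ ⟨z', hz', rfl⟩
      exact h1 z' hz'
    exact h3.trans (OrderHomClass.mono f (le_bsup ((h.Yfin p).image _) ⟨A p, h.Amem p, rfl⟩))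

end

/-! ### Families of clopen sets -/

variable {X : Type u}

/-- `U` depends only on the coordinates in `C`. -/
def Dep (U : Set (X → Bool)) (C : Finset X) : Prop :=
  ∀ ω ω' : X → Bool, (∀ x ∈ C, ω x = ω' x) → ω ∈ U → ω' ∈ U

theorem exists_dep {U : Set (X → Bool)} (hU : IsClopen U) : ∃ C, Dep U C := by
  classical
  have hc : IsCompact U := hU.1.isCompact
  have key : ∃ C : Finset X, ∀ ω ∈ U, ∀ ω', (∀ x ∈ C, ω x = ω' x) → ω' ∈ U := by
    refine hc.induction_on (p := fun S => ∃ C : Finset X, ∀ ω ∈ S, ∀ ω', (∀ x ∈ C, ω x = ω' x) →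
      ω' ∈ U) ⟨∅, by simp⟩ ?_ ?_ ?_
    · rintro s t hst ⟨C, hC⟩
      exact ⟨C, fun ω hω => hC ω (hst hω)⟩
    · rintro s t ⟨C, hC⟩ ⟨D, hD⟩
      refine ⟨C ∪ D, ?_⟩
      rintro ω (hω | hω) ω' h
      · exact hC ω hω ω' (fun x hx => h x (Finset.mem_union_left _ hx))
      · exact hD ω hω ω' (fun x hx => h x (Finset.mem_union_right _ hx))
    · intro ω hω
      obtain ⟨I, u, hu, hsub⟩ := isOpen_pi_iff.1 hU.2 ω hω
      refine ⟨{ω' | ∀ x ∈ I, ω' x = ω x}, ?_, I, ?_⟩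
      · apply mem_nhdsWithin_of_mem_nhds
        have : IsOpen {ω' : X → Bool | ∀ x ∈ I, ω' x = ω x} := by
          have h : {ω' : X → Bool | ∀ x ∈ I, ω' x = ω x} =
              ⋂ x ∈ I, (fun ω' : X → Bool => ω' x) ⁻¹' {ω x} := by
            ext ω'
            simp
          rw [h]
          apply isOpen_biInter_finset
          intro x _
          exact (isOpen_discrete {ω x}).preimage (continuous_apply x)
        exact this.mem_nhds (fun x _ => rfl)
      · intro ω1 h1 ω' h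
        apply hsub
        intro x hx
        have : ω' x = ω x := by
          rw [← h x hx]
          exact h1 x hx
        rw [this]
        exact (hu x hx).2
  obtain ⟨C, hC⟩ := key
  exact ⟨C, fun ω ω' h hω => hC ω hω ω' h⟩

theorem finite_dep (C : Finset X) : {U : Set (X → Bool) | Dep U C}.Finite := by
  classical
  let r : Set (X → Bool) → Set (C → Bool) :=
    fun U => {g | (fun x => if h : x ∈ C then g ⟨x, h⟩ else false) ∈ U}
  apply Set.Finite.of_finite_image (f := r) (Set.toFinite _)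
  intro U hU V hV hUV
  ext ω
  have key : ∀ W : Set (X → Bool), Dep W C → (ω ∈ W ↔ (fun x : C => ω x) ∈ r W) := by
    intro W hW
    change _ ↔ (fun x => if h : x ∈ C then ω x else false) ∈ W
    constructor
    · intro h
      exact hW _ _ (fun x hx => by simp [hx]) h
    · intro h
      exact hW _ _ (fun x hx => by simp [hx]) h
  rw [key U hU, key V hV, hUV]

/-- The smallest set depending on `C` which contains `U`. -/
def proj (C : Finset X) (U : Set (X → Bool)) : Set (X → Bool) :=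
  {ω | ∃ ω' ∈ U, ∀ x ∈ C, ω x = ω' x}

theorem subset_proj (C : Finset X) (U : Set (X → Bool)) : U ⊆ proj C U :=
  fun ω hω => ⟨ω, hω, fun _ _ => rfl⟩

theorem dep_proj (C : Finset X) (U : Set (X → Bool)) : Dep (proj C U) C := by
  rintro ω ω' h ⟨ω'', h1, h2⟩
  exact ⟨ω'', h1, fun x hx => by rw [← h x hx, h2 x hx]⟩

open Classical in
theorem proj_subset {C D : Finset X} {U V : Set (X → Bool)} (hU : Dep U C) (hV : Dep V D)
    (h : U ⊆ V) : proj (C ∩ D) U ⊆ V := by
  rintro ω ⟨ω', h1, h2⟩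
  let ω'' : X → Bool := fun x => if x ∈ C then ω' x else ω x
  have h3 : ω'' ∈ U := hU ω' ω'' (fun x hx => by simp [ω'', hx]) h1
  refine hV ω'' ω (fun x hx => ?_) (h h3)
  by_cases hxC : x ∈ C
  · simp only [ω'', hxC, if_true]
    exact (h2 x (Finset.mem_inter.2 ⟨hxC, hx⟩)).symm
  · simp [ω'', hxC]

/-- Labels. -/
abbrev Lab (X : Type u) : Type u := Finset X × Set (X → Bool)

/-- Upper labels. -/
def AC {T : Type v} (K : T → Set (X → Bool)) (C : T → Finset X) (t : T) : Set (Lab X) :=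
  {z | z.1 ⊆ C t ∧ Dep z.2 z.1 ∧ K t ⊆ z.2}

/-- Lower labels. -/
def BC {T : Type v} (K : T → Set (X → Bool)) (C : T → Finset X) (t : T) : Set (Lab X) :=
  {z | z.1 ⊆ C t ∧ Dep z.2 z.1 ∧ z.2 ⊆ K t}

/-- Labels above a label. -/
def up (z : Lab X) : Set (Lab X) := {w | w.1 ⊆ z.1 ∧ Dep w.2 w.1 ∧ z.2 ⊆ w.2}

theorem finite_lab (C : Finset X) : {z : Lab X | z.1 ⊆ C ∧ Dep z.2 z.1}.Finite := by
  classical
  have h : {z : Lab X | z.1 ⊆ C ∧ Dep z.2 z.1} ⊆
      ⋃ D ∈ C.powerset, {D} ×ˢ {U : Set (X → Bool) | Dep U D} := by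
    rintro ⟨D, U⟩ ⟨h1, h2⟩
    simp only [Set.mem_iUnion]
    exact ⟨D, Finset.mem_powerset.2 h1, rfl, h2⟩
  refine Set.Finite.subset ?_ h
  apply (Finset.finite_toSet C.powerset).biUnion
  intro D _
  exact (Set.finite_singleton D).prod (finite_dep D)

theorem dnf_clopen {T : Type v} (K : T → Set (X → Bool)) (C : T → Finset X)
    (hC : ∀ t, Dep (K t) (C t)) :
    Dnf (fun t s => K t ⊆ K s) (AC K C) (BC K C) (fun t => up '' (BC K C t)) := by
  classical
  have hB : ∀ t, (BC K C t).Finite := fun t => (finite_lab (C t)).subset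
    (fun z hz => ⟨hz.1, hz.2.1⟩)
  constructor
  · intro t
    exact (hB t).image _
  · rintro t _ ⟨z, _, rfl⟩
    exact (finite_lab z.1).subset (fun w hw => ⟨hw.1, hw.2.1⟩)
  · intro t
    exact ⟨(C t, K t), ⟨Finset.Subset.refl _, hC t, Set.Subset.refl _⟩, rfl⟩
  · rintro t _ ⟨z, hz, rfl⟩
    exact ⟨z, ⟨Finset.Subset.refl _, hz.2.1, Set.Subset.refl _⟩, hz⟩
  · rintro t s hts _ ⟨⟨E, q⟩, ⟨h1, h2, h3⟩, rfl⟩
    refine ⟨_, ⟨(E ∩ C s, proj (E ∩ C s) q), ⟨Finset.inter_subset_right, dep_proj _ _,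
      proj_subset h2 (hC s) (h3.trans hts)⟩, rfl⟩, ?_⟩
    rintro ⟨D, c⟩ ⟨h4, h5, h6⟩
    exact ⟨h4.trans Finset.inter_subset_left, h5, (subset_proj _ _).trans h6⟩
  · rintro t s ⟨⟨D, c⟩, h1, h2⟩
    exact h1.2.2.trans h2.2.2

end Pool.Agent.H74.FS
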