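import Pool.Agent.H74.FS.Defs
import Pool.Agent.H74.FS.Dnf

/-!
# Node systems: the sufficiency of the criterion
-/

namespace Pool.Agent.H74.FS

open Pool.Agent.H48.FreeSub

universe u v w

/-- The local conditions of a node system. -/
structure Core {L : Type u} [Lattice L] {T : Type v} (le : T → T → Prop) (node : L → T)
    (J Q : T → Set (Set T)) (rJ rQ : T → ℕ) : Prop where
  refl : ∀ t, le t t
  trans : ∀ t s r, le t s → le s r → le t r
  node_le : ∀ a b : L, le (node a) (node b) ↔ a ≤ b
  joinSide : Half le node J rJ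
  meetSide : Half (L := Lᵒᵈ) (fun s t => le t s) (fun a => node (OrderDual.ofDual a)) Q rQ
  whitman : ∀ t, ∀ W ∈ Q t, ∀ V ∈ J t,
    (∃ w ∈ W, Cov le J w V) ∨ ∃ v ∈ V, Cov (fun s t => le t s) Q v W

/-! ### The normal completion -/

theorem exists_completion {T : Type v} (le : T → T → Prop) (hr : ∀ t, le t t)
    (ht : ∀ t s r, le t s → le s r → le t r) :
    ∃ (C : Type v) (_ : CompleteLattice C) (e : T → C), (∀ t s, e t ≤ e s ↔ le t s) ∧
      (∀ x y : C, (∀ t, e t ≤ x → e t ≤ y) → x ≤ y) ∧
      (∀ x y : C, (∀ t, y ≤ e t → x ≤ e t) → x ≤ y) := by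
  let ob : T → Concept T T le := fun t => Concept.ofObject le t
  let at' : T → Concept T T le := fun t => Concept.ofAttribute le t
  have h1 : ∀ t s, ob t ≤ at' s ↔ le t s := fun t s => Concept.ofObject_le_ofAttribute_iff
  have h2 : ∀ x y : Concept T T le, (∀ t, ob t ≤ x → ob t ≤ y) → x ≤ y := by
    intro x y h
    rw [← Concept.extent_subset_extent_iff]
    intro t ht
    have h3 : ob t ≤ x := by
      change Concept.ofObject le t ≤ x
      rw [Concept.ofObject, Concept.ofObjects_le_iff]
      simpa using ht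
    have h4 := h t h3
    change Concept.ofObject le t ≤ y at h4
    rw [Concept.ofObject, Concept.ofObjects_le_iff] at h4
    exact h4 rfl
  have h3 : ∀ x y : Concept T T le, (∀ t, y ≤ at' t → x ≤ at' t) → x ≤ y := by
    intro x y h
    rw [← Concept.intent_subset_intent_iff]
    intro t ht
    have h4 : y ≤ at' t := by
      change y ≤ Concept.ofAttribute le t
      rw [Concept.ofAttribute, Concept.le_ofAttributes_iff]
      simpa using ht
    have h5 := h t h4
    change x ≤ Concept.ofAttribute le t at h5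
    rw [Concept.ofAttribute, Concept.le_ofAttributes_iff] at h5
    exact h5 rfl
  have h4 : ∀ t, ob t = at' t := by
    intro t
    apply le_antisymm
    · rw [h1]
      exact hr t
    · apply h2
      intro s hs
      rw [h1] at hs
      apply h3
      intro r hr'
      rw [h1] at hr' ⊢
      exact ht _ _ _ hs hr'
  refine ⟨Concept T T le, inferInstance, ob, ?_, h2, ?_⟩
  · intro t s
    rw [h4 s, h1]
  · intro x y h
    apply h3
    intro t ht
    rw [← h4] at ht ⊢
    exact h t ht

section

variable {T : Type v} {K : Type w} [Lattice K] [Nonempty K]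

/-- The meet-completion. -/
noncomputable def mo (s : T → K) (Q : T → Set (Set T)) (rk : T → ℕ) (j : T) : K :=
  bsup (insert (s j) {k | ∃ V ∈ Q j, k = binf {y | ∃ z ∈ V, ∃ _ : rk z < rk j, y = mo s Q rk z}})
termination_by rk j

/-- The join-completion. -/
noncomputable def po (m : T → K) (J : T → Set (Set T)) (rk : T → ℕ) (j : T) : K :=
  binf (insert (m j) {k | ∃ V ∈ J j, k = bsup {y | ∃ z ∈ V, ∃ _ : rk z < rk j, y = po m J rk z}})
termination_by rk j

theorem mo_eq {s : T → K} {Q : T → Set (Set T)} {rk : T → ℕ}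
    (hr : ∀ t, ∀ V ∈ Q t, ∀ v ∈ V, rk v < rk t) (j : T) :
    mo s Q rk j = bsup (insert (s j) ((fun V => binf (mo s Q rk '' V)) '' Q j)) := by
  rw [mo]
  congr 2
  ext k
  constructor
  · rintro ⟨V, hV, rfl⟩
    refine ⟨V, hV, ?_⟩
    dsimp only
    congr 1
    ext y
    constructor
    · rintro ⟨z, hz, rfl⟩
      exact ⟨z, hz, hr j V hV z hz, rfl⟩
    · rintro ⟨z, hz, _, rfl⟩
      exact ⟨z, hz, rfl⟩
  · rintro ⟨V, hV, rfl⟩
    refine ⟨V, hV, ?_⟩
    dsimp only
    congr 1
    ext y
    constructor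
    · rintro ⟨z, hz, rfl⟩
      exact ⟨z, hz, hr j V hV z hz, rfl⟩
    · rintro ⟨z, hz, _, rfl⟩
      exact ⟨z, hz, rfl⟩

theorem po_eq {m : T → K} {J : T → Set (Set T)} {rk : T → ℕ}
    (hr : ∀ t, ∀ V ∈ J t, ∀ v ∈ V, rk v < rk t) (j : T) :
    po m J rk j = binf (insert (m j) ((fun V => bsup (po m J rk '' V)) '' J j)) := by
  rw [po]
  congr 2
  ext k
  constructor
  · rintro ⟨V, hV, rfl⟩
    refine ⟨V, hV, ?_⟩
    dsimp only
    congr 1
    ext y
    constructor
    · rintro ⟨z, hz, rfl⟩
      exact ⟨z, hz, hr j V hV z hz, rfl⟩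
    · rintro ⟨z, hz, _, rfl⟩
      exact ⟨z, hz, rfl⟩
  · rintro ⟨V, hV, rfl⟩
    refine ⟨V, hV, ?_⟩
    dsimp only
    congr 1
    ext y
    constructor
    · rintro ⟨z, hz, rfl⟩
      exact ⟨z, hz, hr j V hV z hz, rfl⟩
    · rintro ⟨z, hz, _, rfl⟩
      exact ⟨z, hz, rfl⟩

end

section

variable {L : Type u} [Lattice L] {T : Type v} {le : T → T → Prop} {node : L → T}
  {J Q : T → Set (Set T)} {rJ rQ : T → ℕ} {K : Type w} [Lattice K] [Nonempty K] {s : T → K}

theorem Core.s_le_mo (h : Core le node J Q rJ rQ) (t : T) : s t ≤ mo s Q rQ t := by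
  rw [mo_eq h.meetSide.rank]
  exact le_bsup (((h.meetSide.fin t).image _).insert _) (Or.inl rfl)

theorem Core.meet_le_mo (h : Core le node J Q rJ rQ) {t : T} {W : Set T} (hW : W ∈ Q t) :
    binf (mo s Q rQ '' W) ≤ mo s Q rQ t := by
  rw [mo_eq h.meetSide.rank t]
  exact le_bsup (((h.meetSide.fin t).image _).insert _) (Or.inr ⟨W, hW, rfl⟩)

theorem Core.mo_mono (h : Core le node J Q rJ rQ) (hs : ∀ t t', le t t' → s t ≤ s t') :
    ∀ t t', le t t' → mo s Q rQ t ≤ mo s Q rQ t' := by
  have key : ∀ n, ∀ t, rQ t < n → ∀ t', le t t' → mo s Q rQ t ≤ mo s Q rQ t' := by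
    intro n
    induction n with
    | zero => intro t hn; omega
    | succ n ih =>
      intro t hn t' htt'
      rw [mo_eq h.meetSide.rank t]
      apply bsup_le (((h.meetSide.fin t).image _).insert _) ⟨_, Or.inl rfl⟩
      rintro _ (rfl | ⟨W, hW, rfl⟩)
      · exact (hs t t' htt').trans (h.s_le_mo t')
      · dsimp only
        obtain ⟨hWf, hWn⟩ := h.meetSide.mem t W hW
        have hr : ∀ w ∈ W, ∀ t'', le w t'' → mo s Q rQ w ≤ mo s Q rQ t'' := fun w hw =>
          ih w (by have := h.meetSide.rank t W hW w hw; omega)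
        rcases h.meetSide.mono t' t htt' W hW with ⟨w, hw, hwt⟩ | ⟨W', hW', hWW⟩
        · exact (binf_le (hWf.image _) ⟨w, hw, rfl⟩).trans (hr w hw t' hwt)
        · obtain ⟨hWf', hWn'⟩ := h.meetSide.mem t' W' hW'
          refine le_trans ?_ (h.meet_le_mo hW')
          apply le_binf (hWf'.image _) (hWn'.image _)
          rintro _ ⟨w', hw', rfl⟩
          obtain ⟨w, hw, hww⟩ := hWW w' hw'
          exact (binf_le (hWf.image _) ⟨w, hw, rfl⟩).trans (hr w hw w' hww)
  exact fun t => key _ t (Nat.lt_succ_self _)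

theorem Core.po_le_m (h : Core le node J Q rJ rQ) {m : T → K} (t : T) : po m J rJ t ≤ m t := by
  rw [po_eq h.joinSide.rank]
  exact binf_le (((h.joinSide.fin t).image _).insert _) (Or.inl rfl)

theorem Core.po_le_join (h : Core le node J Q rJ rQ) {m : T → K} {t : T} {V : Set T}
    (hV : V ∈ J t) : po m J rJ t ≤ bsup (po m J rJ '' V) := by
  rw [po_eq h.joinSide.rank t]
  exact binf_le (((h.joinSide.fin t).image _).insert _) (Or.inr ⟨V, hV, rfl⟩)

theorem Core.le_po (h : Core le node J Q rJ rQ) {m : T → K} {t : T} {c : K} (h1 : c ≤ m t)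
    (h2 : ∀ V ∈ J t, c ≤ bsup (po m J rJ '' V)) : c ≤ po m J rJ t := by
  rw [po_eq h.joinSide.rank t]
  apply le_binf (((h.joinSide.fin t).image _).insert _) ⟨_, Or.inl rfl⟩
  rintro _ (rfl | ⟨V, hV, rfl⟩)
  · exact h1
  · exact h2 V hV

theorem Core.po_mono (h : Core le node J Q rJ rQ) {m : T → K}
    (hs : ∀ t t', le t t' → m t ≤ m t') : ∀ t' t, le t t' → po m J rJ t ≤ po m J rJ t' := by
  have key : ∀ n, ∀ t', rJ t' < n → ∀ t, le t t' → po m J rJ t ≤ po m J rJ t' := by
    intro n
    induction n with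
    | zero => intro t hn; omega
    | succ n ih =>
      intro t' hn t htt'
      apply h.le_po ((h.po_le_m t).trans (hs t t' htt'))
      intro V hV
      obtain ⟨hVf, hVn⟩ := h.joinSide.mem t' V hV
      have hr : ∀ v ∈ V, ∀ t'', le t'' v → po m J rJ t'' ≤ po m J rJ v := fun v hv =>
        ih v (by have := h.joinSide.rank t' V hV v hv; omega)
      rcases h.joinSide.mono t t' htt' V hV with ⟨v, hv, hvt⟩ | ⟨V', hV', hVV⟩
      · exact (hr v hv t hvt).trans (le_bsup (hVf.image _) ⟨v, hv, rfl⟩)
      · obtain ⟨hVf', hVn'⟩ := h.joinSide.mem t V' hV'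
        refine (h.po_le_join hV').trans ?_
        apply bsup_le (hVf'.image _) (hVn'.image _)
        rintro _ ⟨v', hv', rfl⟩
        obtain ⟨v, hv, hvv⟩ := hVV v' hv'
        exact (hr v hv v' hvv).trans (le_bsup (hVf.image _) ⟨v, hv, rfl⟩)
  exact fun t => key _ t (Nat.lt_succ_self _)

theorem Core.cov_le (h : Core le node J Q rJ rQ) {m : T → K}
    (hs : ∀ t t', le t t' → m t ≤ m t') {t : T} {V : Set T} (hV : V.Finite)
    (hc : Cov le J t V) : po m J rJ t ≤ bsup (po m J rJ '' V) := by
  rcases hc with ⟨v, hv, hvt⟩ | ⟨V', hV', hVV⟩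
  · exact (h.po_mono hs v t hvt).trans (le_bsup (hV.image _) ⟨v, hv, rfl⟩)
  · obtain ⟨hVf', hVn'⟩ := h.joinSide.mem t V' hV'
    refine (h.po_le_join hV').trans ?_
    apply bsup_le (hVf'.image _) (hVn'.image _)
    rintro _ ⟨v', hv', rfl⟩
    obtain ⟨v, hv, hvv⟩ := hVV v' hv'
    exact (h.po_mono hs v v' hvv).trans (le_bsup (hV.image _) ⟨v, hv, rfl⟩)

theorem Core.meet_le (h : Core le node J Q rJ rQ) (hs : ∀ t t', le t t' → s t ≤ s t') :
    ∀ t, ∀ W : Set T, W.Finite → Cov (fun s t => le t s) Q t W →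
      binf (po (mo s Q rQ) J rJ '' W) ≤ po (mo s Q rQ) J rJ t := by
  have hm := h.mo_mono hs
  have key : ∀ n, ∀ t, rJ t < n → ∀ W : Set T, W.Finite → Cov (fun s t => le t s) Q t W →
      binf (po (mo s Q rQ) J rJ '' W) ≤ po (mo s Q rQ) J rJ t := by
    intro n
    induction n with
    | zero => intro t hn; omega
    | succ n ih =>
      intro t hn W hWf hW
      have main : ∀ W ∈ Q t, binf (po (mo s Q rQ) J rJ '' W) ≤ po (mo s Q rQ) J rJ t := by
        intro W hW
        obtain ⟨hWf, hWn⟩ := h.meetSide.mem t W hW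
        apply h.le_po
        · exact (binf_image_mono hWf hWn (fun w _ => h.po_le_m w)).trans (h.meet_le_mo hW)
        · intro V hV
          obtain ⟨hVf, hVn⟩ := h.joinSide.mem t V hV
          rcases h.whitman t W hW V hV with ⟨w, hw, hwV⟩ | ⟨v, hv, hvW⟩
          · exact (binf_le (hWf.image _) ⟨w, hw, rfl⟩).trans (h.cov_le hm hVf hwV)
          · refine (ih v ?_ W hWf hvW).trans (le_bsup (hVf.image _) ⟨v, hv, rfl⟩)
            have := h.joinSide.rank t V hV v hv
            omega
      rcases hW with ⟨w, hw, hwt⟩ | ⟨W', hW', hWW⟩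
      · exact (binf_le (hWf.image _) ⟨w, hw, rfl⟩).trans (h.po_mono hm t w hwt)
      · refine le_trans ?_ (main W' hW')
        obtain ⟨hWf', hWn'⟩ := h.meetSide.mem t W' hW'
        apply le_binf (hWf'.image _) (hWn'.image _)
        rintro _ ⟨w', hw', rfl⟩
        obtain ⟨w, hw, hww⟩ := hWW w' hw'
        exact (binf_le (hWf.image _) ⟨w, hw, rfl⟩).trans (h.po_mono hm w' w hww)
  exact fun t => key _ t (Nat.lt_succ_self _)

end

/-- The value is retracted onto the completion. -/
theorem Core.map_val {L : Type u} [Lattice L] {T : Type v} {le : T → T → Prop} {node : L → T}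
    {J Q : T → Set (Set T)} {rJ rQ : T → ℕ} (h : Core le node J Q rJ rQ)
    {K : Type w} [Lattice K] [Nonempty K] {s : T → K}
    {C : Type v} [CompleteLattice C] (e : T → C) (he : ∀ t s, e t ≤ e s ↔ le t s)
    (he1 : ∀ x y : C, (∀ t, e t ≤ x → e t ≤ y) → x ≤ y)
    (he2 : ∀ x y : C, (∀ t, y ≤ e t → x ≤ e t) → x ≤ y)
    (f : LatticeHom K C) (hf : ∀ t, f (s t) = e t) :
    ∀ t, f (po (mo s Q rQ) J rJ t) = e t := by
  have hmo : ∀ n, ∀ t, rQ t < n → f (mo s Q rQ t) = e t := by
    intro n
    induction n with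
    | zero => intro t hn; omega
    | succ n ih =>
      intro t hn
      apply le_antisymm
      · rw [mo_eq h.meetSide.rank]
        apply map_bsup_le f (((h.meetSide.fin t).image _).insert _) ⟨_, Or.inl rfl⟩
        rintro _ (rfl | ⟨W, hW, rfl⟩)
        · exact (hf t).le
        · dsimp only
          obtain ⟨hWf, hWn⟩ := h.meetSide.mem t W hW
          apply he1
          intro r hr
          rw [he]
          apply h.meetSide.sound t W hW r
          intro w hw
          rw [← he, ← ih w (by have := h.meetSide.rank t W hW w hw; omega)]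
          exact hr.trans (OrderHomClass.mono f (binf_le (hWf.image _) ⟨w, hw, rfl⟩))
      · rw [← hf t]
        exact OrderHomClass.mono f (h.s_le_mo t)
  have hm : ∀ t, f (mo s Q rQ t) = e t := fun t => hmo _ t (Nat.lt_succ_self _)
  have hpo : ∀ n, ∀ t, rJ t < n → f (po (mo s Q rQ) J rJ t) = e t := by
    intro n
    induction n with
    | zero => intro t hn; omega
    | succ n ih =>
      intro t hn
      apply le_antisymm
      · rw [← hm t]
        exact OrderHomClass.mono f (h.po_le_m t)
      · rw [po_eq h.joinSide.rank]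
        apply le_map_binf f (((h.joinSide.fin t).image _).insert _) ⟨_, Or.inl rfl⟩
        rintro _ (rfl | ⟨V, hV, rfl⟩)
        · exact (hm t).ge
        · dsimp only
          obtain ⟨hVf, hVn⟩ := h.joinSide.mem t V hV
          apply he2
          intro r hr
          rw [he]
          apply h.joinSide.sound t V hV r
          intro v hv
          rw [← he, ← ih v (by have := h.joinSide.rank t V hV v hv; omega)]
          exact (OrderHomClass.mono f (le_bsup (hVf.image _) ⟨v, hv, rfl⟩)).trans hr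
  exact fun t => hpo _ t (Nat.lt_succ_self _)

theorem bsup_pair {K : Type w} [Lattice K] [Nonempty K] (x y : K) : bsup {x, y} = x ⊔ y := by
  have hf : ({x, y} : Set K).Finite := Set.toFinite _
  apply le_antisymm
  · apply bsup_le hf ⟨x, by simp⟩
    rintro z (rfl | rfl)
    · exact le_sup_left
    · exact le_sup_right
  · exact sup_le (le_bsup hf (by simp)) (le_bsup hf (by simp))

theorem binf_pair {K : Type w} [Lattice K] [Nonempty K] (x y : K) : binf {x, y} = x ⊓ y := by
  have hf : ({x, y} : Set K).Finite := Set.toFinite _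
  apply le_antisymm
  · exact le_inf (binf_le hf (by simp)) (binf_le hf (by simp))
  · apply le_binf hf ⟨x, by simp⟩
    rintro z (rfl | rfl)
    · exact inf_le_left
    · exact inf_le_right

/-- **Sufficiency.** A node system whose nodes are ordered by a relation with normal forms yields
an embedding into a free lattice. -/
theorem Core.embeds {L : Type u} [Lattice L] {T : Type u} {le : T → T → Prop} {node : L → T}
    {J Q : T → Set (Set T)} {rJ rQ : T → ℕ} (h : Core le node J Q rJ rQ)
    {Z : Type u} {A B : T → Set Z} {Y : T → Set (Set Z)} (hD : Dnf le A B Y) :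
    EmbedsInFree L := by
  classical
  rw [embedsInFree_iff]
  rcases isEmpty_or_nonempty L with hL | ⟨⟨a0⟩⟩
  · exact ⟨L, { toFun := fun a => hL.elim a
                map_sup' := fun a => hL.elim a
                map_inf' := fun a => hL.elim a }, fun a => hL.elim a⟩
  obtain ⟨z0, _, _⟩ := hD.meet (node a0) _ (hD.Amem (node a0))
  haveI : Nonempty (FL Z) := ⟨FL.gen z0⟩
  obtain ⟨C, _, e, he, he1, he2⟩ := exists_completion le h.refl h.trans
  let s : T → FL Z := fun t => dfl (Y t)
  have hs : ∀ t t', le t t' → s t ≤ s t' := fun t t' htt' => hD.dfl_mono htt'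
  let f : LatticeHom (FL Z) C := FL.lift (fun z => sSup (e '' {t | z ∈ A t}))
  have hf : ∀ t, f (s t) = e t := by
    intro t
    apply hD.map_dfl
    · intro z hz
      change e t ≤ sSup (e '' {t | z ∈ A t})
      exact le_sSup ⟨t, hz, rfl⟩
    · intro z hz
      change sSup (e '' {t | z ∈ A t}) ≤ e t
      apply sSup_le
      rintro _ ⟨r, hr, rfl⟩
      rw [he]
      exact hD.sep r t ⟨z, hr, hz⟩
  have hval := h.map_val (s := s) e he he1 he2 f hf
  let g : L → FL Z := fun a => po (mo s Q rQ) J rJ (node a)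
  have hgle : ∀ a b, a ≤ b → g a ≤ g b := fun a b hab =>
    h.po_mono (h.mo_mono hs) _ _ ((h.node_le a b).2 hab)
  refine ⟨Z, { toFun := g, map_sup' := ?_, map_inf' := ?_ }, ?_⟩
  · intro a b
    apply le_antisymm
    · have := h.cov_le (h.mo_mono hs) (Set.toFinite _) (h.joinSide.join a b)
      rw [Set.image_pair, bsup_pair] at this
      exact this
    · exact sup_le (hgle _ _ le_sup_left) (hgle _ _ le_sup_right)
  · intro a b
    apply le_antisymm
    · exact le_inf (hgle _ _ inf_le_left) (hgle _ _ inf_le_right)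
    · have := h.meet_le hs (node (a ⊓ b)) {node a, node b} (Set.toFinite _)
        (h.meetSide.join (OrderDual.toDual a) (OrderDual.toDual b))
      rw [Set.image_pair, binf_pair] at this
      exact this
  · intro a b hab
    have h1 : e (node a) = e (node b) := by
      rw [← hval, ← hval]
      exact congrArg f hab
    exact le_antisymm ((h.node_le a b).1 ((he _ _).1 h1.le))
      ((h.node_le b a).1 ((he _ _).1 h1.ge))

end Pool.Agent.H74.FS
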