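import Pool.Agent.H48.FreeSub.FreeLat

/-!
# Sublattices of free lattices, arbitrary cardinality: the definitions used in the statements

`EmbedsInFree`, `IsFreeLattice` and `WhitmanW` are defined in `Pool.Agent.H48.FreeSub.Defs`; lattice
terms `Tm X`, their size, the free lattice `FL X` and the class `FL.cl t : FL X` of a term `t` in
`Pool.Agent.H48.FreeSub.FreeLat`.
-/

namespace Pool.Agent.H74.FS

open Pool.Agent.H48.FreeSub

universe u v

/-- For nodes `t : T` compared by a relation `le`, and a function `J` assigning to every node a set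
of sets of nodes: the node `t` is covered by the set `V` of nodes if either `t` lies below a member
of `V`, or there is `V' ∈ J t` each member of which lies below a member of `V`. -/
def Cov {T : Type v} (le : T → T → Prop) (J : T → Set (Set T)) (t : T) (V : Set T) : Prop :=
  (∃ v ∈ V, le t v) ∨ ∃ V' ∈ J t, ∀ v' ∈ V', ∃ v ∈ V, le v' v

/-- The conditions on joins: every `J t` is a finite set (`fin`) of finite nonempty sets of nodes
(`mem`) of rank smaller than the rank of `t` (`rank`); if `V ∈ J t` and `t'` lies below `t`, then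
`V` covers `t'` (`mono`); the node of a join `a ⊔ b` in `L` is covered by the nodes of `a` and `b`
(`join`); a node above all members of some `V ∈ J t` lies above `t` (`sound`). -/
structure Half {L : Type u} [Lattice L] {T : Type v} (le : T → T → Prop) (node : L → T)
    (J : T → Set (Set T)) (rk : T → ℕ) : Prop where
  fin : ∀ t, (J t).Finite
  mem : ∀ t, ∀ V ∈ J t, V.Finite ∧ V.Nonempty
  rank : ∀ t, ∀ V ∈ J t, ∀ v ∈ V, rk v < rk t
  mono : ∀ t' t, le t' t → ∀ V ∈ J t, Cov le J t' V
  join : ∀ a b : L, Cov le J (node (a ⊔ b)) {node a, node b}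
  sound : ∀ t, ∀ V ∈ J t, ∀ s, (∀ v ∈ V, le v s) → le t s

/-- A node system for the lattice `L`: a set `T` of nodes, each carrying a clopen subset `K t` of
the Cantor cube `2 ^ X`; nodes are compared by inclusion of these clopen sets. Every element of `L`
is represented by a node, and this is an order embedding (`node_le`). Every node `t` has a set `J t`
of join refinements, satisfying the conditions of `Half`, and a set `Q t` of meet refinements,
satisfying the dual conditions (`Half` for the dual lattice and the reversed comparison of nodes).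
Finally Whitman's condition holds for refinements: if `W ∈ Q t` and `V ∈ J t`, then `V` covers some
`w ∈ W`, or dually `W` covers some `v ∈ V`. -/
structure NodeSystem (L : Type u) [Lattice L] where
  /-- the coordinates of the Cantor cube -/
  X : Type u
  /-- the nodes -/
  T : Type u
  /-- the clopen set of a node -/
  K : T → Set (X → Bool)
  /-- the node of an element of the lattice -/
  node : L → T
  /-- the join refinements of a node -/
  J : T → Set (Set T)
  /-- the meet refinements of a node -/
  Q : T → Set (Set T)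
  /-- the rank for `J` -/
  rJ : T → ℕ
  /-- the rank for `Q` -/
  rQ : T → ℕ
  clopen : ∀ t, IsClopen (K t)
  node_le : ∀ a b : L, K (node a) ⊆ K (node b) ↔ a ≤ b
  joinSide : Half (fun s t => K s ⊆ K t) node J rJ
  meetSide : Half (L := Lᵒᵈ) (fun s t => K t ⊆ K s) (fun a => node (OrderDual.ofDual a)) Q rQ
  whitman : ∀ t, ∀ W ∈ Q t, ∀ V ∈ J t,
    (∃ w ∈ W, Cov (fun s t => K s ⊆ K t) J w V) ∨ ∃ v ∈ V, Cov (fun s t => K t ⊆ K s) Q v W

/-- There is a node system for `L`. -/
def HasNodeSystem (L : Type u) [Lattice L] : Prop := Nonempty (NodeSystem L)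

/-- There is a node system for `L` in which the node of every element of `L` belongs to a finite
set `D` of nodes which is closed under passing to join refinements and to meet refinements. -/
def HasFinitaryNodeSystem (L : Type u) [Lattice L] : Prop :=
  ∃ N : NodeSystem L, ∀ a : L, ∃ D : Set N.T, D.Finite ∧ N.node a ∈ D ∧
    ∀ t ∈ D, (∀ V ∈ N.J t, V ⊆ D) ∧ (∀ W ∈ N.Q t, W ⊆ D)

/-- There is `n : L → ℕ` such that for every finite subset `E` of `L` there are lattice terms `h b`,
`b ∈ E`, in countably many variables, of size at most `n b`, such that `b ↦ h b` is an order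
embedding of `E` into the free lattice on countably many generators which preserves those binary
joins and meets of elements of `E` which belong to `E`. -/
def LocallyBounded (L : Type u) [Lattice L] : Prop :=
  ∃ n : L → ℕ, ∀ E : Finset L, ∃ h : L → Tm ℕ, (∀ b ∈ E, (h b).size ≤ n b) ∧
    (∀ a ∈ E, ∀ b ∈ E, (FL.cl (h a) ≤ FL.cl (h b) ↔ a ≤ b)) ∧
    (∀ a ∈ E, ∀ b ∈ E, a ⊔ b ∈ E → FL.cl (h (a ⊔ b)) = FL.cl (h a) ⊔ FL.cl (h b)) ∧
    (∀ a ∈ E, ∀ b ∈ E, a ⊓ b ∈ E → FL.cl (h (a ⊓ b)) = FL.cl (h a) ⊓ FL.cl (h b))

/-- The quasi-ordered set `P` is order-isomorphic to a set of elements of a free lattice. -/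
def OrderEmbedsFree (P : Type u) [Preorder P] : Prop :=
  ∃ (X F : Type u) (_ : Lattice F) (ι : X → F), IsFreeLattice ι ∧
    ∃ f : P → F, ∀ p q, f p ≤ f q ↔ p ≤ q

/-- The quasi-ordered set `P` is order-isomorphic to a family of clopen subsets of a Cantor cube
`2 ^ X`, ordered by inclusion, that is, to a set of elements of a free Boolean algebra. -/
def OrderEmbedsClopen (P : Type u) [Preorder P] : Prop :=
  ∃ (X : Type u) (K : P → Set (X → Bool)), (∀ p, IsClopen (K p)) ∧
    ∀ p q, K p ⊆ K q ↔ p ≤ q

/-- `P` order-embeds into a quasi-ordered set `R` in which every element `r` has a finite set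
`D r ∋ r`, where `s ∈ D r` implies `D s ⊆ D r`, and whenever `r ≤ s` there is `t ∈ D r ∩ D s` with
`r ≤ t ≤ s`. -/
def OrderEmbedsSupported (P : Type u) [Preorder P] : Prop :=
  ∃ (R : Type u) (_ : Preorder R) (D : R → Set R) (f : P → R),
    (∀ r, (D r).Finite) ∧ (∀ r, r ∈ D r) ∧ (∀ r, ∀ s ∈ D r, D s ⊆ D r) ∧
    (∀ r s, r ≤ s → ∃ t ∈ D r ∩ D s, r ≤ t ∧ t ≤ s) ∧ ∀ p q, f p ≤ f q ↔ p ≤ q

/-- Every element `a` of `L` has a finite set `J a` of finite nonempty sets `V` of elements of
smaller rank, with `a ≤ ⋁ V`, such that whenever `a` lies below a finite join `⋁ U`, either `a ≤ u`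
for some `u ∈ U`, or there is `V ∈ J a` each member of which lies below a member of `U`. -/
def FiniteJoinRefinement (L : Type u) [Lattice L] : Prop :=
  ∃ (J : L → Set (Set L)) (r : L → ℕ), (∀ a, (J a).Finite) ∧
    (∀ a, ∀ V ∈ J a, V.Finite ∧ V.Nonempty ∧ (∀ v ∈ V, r v < r a) ∧
      ∀ c, (∀ v ∈ V, v ≤ c) → a ≤ c) ∧
    ∀ (a : L) (U : Finset L) (hU : U.Nonempty), a ≤ U.sup' hU id →
      (∃ u ∈ U, a ≤ u) ∨ ∃ V ∈ J a, ∀ v ∈ V, ∃ u ∈ U, v ≤ u

end Pool.Agent.H74.FS
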