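import Pool.Agent.H74.FS.Dnf

/-!
# Normal forms for free lattices: a free lattice embeds, as an ordered set, in the clopen algebra
of a Cantor cube
-/

namespace Pool.Agent.H74.FS

open Pool.Agent.H48.FreeSub

universe u

variable {X : Type u}

/-- The free lattice with a least and a greatest element adjoined. -/
abbrev BFL (X : Type u) : Type u := WithBot (WithTop (FL X))

/-- The inclusion. -/
def em (a : FL X) : BFL X := ((a : WithTop (FL X)) : WithBot (WithTop (FL X)))

theorem em_le {a b : FL X} : em a ≤ em b ↔ a ≤ b := by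
  rw [em, em, WithBot.coe_le_coe, WithTop.coe_le_coe]

theorem em_sup (a b : FL X) : em (a ⊔ b) = em a ⊔ em b := rfl

theorem em_inf (a b : FL X) : em (a ⊓ b) = em a ⊓ em b := rfl

/-- Extension of an assignment. -/
noncomputable def ext (δ : X → BFL X) : LatticeHom (BFL X) (BFL X) :=
  ((FL.lift δ).withTop').withBot'

theorem ext_em (δ : X → BFL X) (a : FL X) : ext δ (em a) = FL.lift δ a := rfl

theorem ext_top (δ : X → BFL X) : ext δ ⊤ = ⊤ := rfl

theorem ext_bot (δ : X → BFL X) : ext δ ⊥ = ⊥ := rfl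

open Classical in
/-- The assignment which fixes the generators in `F` and sends the others to `⊤` or `⊥`. -/
noncomputable def sub (F : Finset X) (b : Bool) (x : X) : BFL X :=
  if x ∈ F then em (FL.gen x) else if b then ⊤ else ⊥

open Classical in
/-- The variables of a term. -/
noncomputable def vars : Tm X → Finset X
  | .var x => {x}
  | .sup s t => vars s ∪ vars t
  | .inf s t => vars s ∪ vars t

/-- The depth of a term. -/
def depth : Tm X → ℕ
  | .var _ => 0
  | .sup s t => max (depth s) (depth t) + 1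
  | .inf s t => max (depth s) (depth t) + 1

/-- Values of terms of depth at most `n` with variables in `E`. -/
def Dst (E : Finset X) : ℕ → Set (BFL X)
  | 0 => {⊤, ⊥} ∪ (fun x => em (FL.gen x)) '' E
  | n + 1 => Dst E n ∪ (Set.image2 (· ⊔ ·) (Dst E n) (Dst E n) ∪
      Set.image2 (· ⊓ ·) (Dst E n) (Dst E n))

theorem Dst_finite (E : Finset X) : ∀ n, (Dst E n).Finite
  | 0 => (Set.toFinite _).union (E.finite_toSet.image _)
  | n + 1 => (Dst_finite E n).union (((Dst_finite E n).image2 _ (Dst_finite E n)).union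
      ((Dst_finite E n).image2 _ (Dst_finite E n)))

theorem Dst_succ (E : Finset X) (n : ℕ) : Dst E n ⊆ Dst E (n + 1) := fun _ h => Or.inl h

theorem Dst_mono_n (E : Finset X) {n m : ℕ} (h : n ≤ m) : Dst E n ⊆ Dst E m := by
  induction h with
  | refl => exact Set.Subset.refl _
  | step _ ih => exact ih.trans (Dst_succ E _)

theorem Dst_sup {E : Finset X} {n : ℕ} {a b : BFL X} (ha : a ∈ Dst E n) (hb : b ∈ Dst E n) :
    a ⊔ b ∈ Dst E (n + 1) := Or.inr (Or.inl ⟨a, ha, b, hb, rfl⟩)

theorem Dst_inf {E : Finset X} {n : ℕ} {a b : BFL X} (ha : a ∈ Dst E n) (hb : b ∈ Dst E n) :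
    a ⊓ b ∈ Dst E (n + 1) := Or.inr (Or.inr ⟨a, ha, b, hb, rfl⟩)

theorem Dst_mono_E {E F : Finset X} (h : E ⊆ F) : ∀ n, Dst E n ⊆ Dst F n
  | 0 => by
    rintro a (ha | ⟨x, hx, rfl⟩)
    · exact Or.inl ha
    · exact Or.inr ⟨x, h hx, rfl⟩
  | n + 1 => by
    rintro a (ha | ⟨b, hb, c, hc, rfl⟩ | ⟨b, hb, c, hc, rfl⟩)
    · exact Or.inl (Dst_mono_E h n ha)
    · exact Dst_sup (Dst_mono_E h n hb) (Dst_mono_E h n hc)
    · exact Dst_inf (Dst_mono_E h n hb) (Dst_mono_E h n hc)

theorem em_mem (t : Tm X) : em (FL.cl t) ∈ Dst (vars t) (depth t) := by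
  classical
  induction t with
  | var x => exact Or.inr ⟨x, by simp [vars], rfl⟩
  | sup s t ihs iht =>
    rw [FL.cl_sup, em_sup]
    apply Dst_sup
    · apply Dst_mono_n _ (le_max_left _ _)
      exact Dst_mono_E (by simp only [vars]; exact Finset.subset_union_left) _ ihs
    · apply Dst_mono_n _ (le_max_right _ _)
      exact Dst_mono_E (by simp only [vars]; exact Finset.subset_union_right) _ iht
  | inf s t ihs iht =>
    rw [FL.cl_inf, em_inf]
    apply Dst_inf
    · apply Dst_mono_n _ (le_max_left _ _)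
      exact Dst_mono_E (by simp only [vars]; exact Finset.subset_union_left) _ ihs
    · apply Dst_mono_n _ (le_max_right _ _)
      exact Dst_mono_E (by simp only [vars]; exact Finset.subset_union_right) _ iht

open Classical in
theorem ext_mem {G F : Finset X} {b : Bool} : ∀ d, ∀ q ∈ Dst G d, ext (sub F b) q ∈ Dst (G ∩ F) d
  | 0 => by
    rintro q ((rfl | rfl) | ⟨x, hx, rfl⟩)
    · exact Or.inl (Or.inl rfl)
    · exact Or.inl (Or.inr rfl)
    · dsimp only
      rw [ext_em, FL.lift_gen, sub]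
      by_cases hxF : x ∈ F
      · rw [if_pos hxF]
        exact Or.inr ⟨x, by simpa using ⟨hx, hxF⟩, rfl⟩
      · rw [if_neg hxF]
        cases b
        · exact Or.inl (Or.inr rfl)
        · exact Or.inl (Or.inl rfl)
  | d + 1 => by
    rintro q (hq | ⟨a, ha, c, hc, rfl⟩ | ⟨a, ha, c, hc, rfl⟩)
    · exact Or.inl (ext_mem d q hq)
    · dsimp only
      rw [map_sup]
      exact Dst_sup (ext_mem d a ha) (ext_mem d c hc)
    · dsimp only
      rw [map_inf]
      exact Dst_inf (ext_mem d a ha) (ext_mem d c hc)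

theorem ext_fix {G F : Finset X} {b : Bool} (h : G ⊆ F) :
    ∀ d, ∀ q ∈ Dst G d, ext (sub F b) q = q
  | 0 => by
    rintro q ((rfl | rfl) | ⟨x, hx, rfl⟩)
    · rfl
    · rfl
    · dsimp only
      rw [ext_em, FL.lift_gen, sub, if_pos (h hx)]
  | d + 1 => by
    rintro q (hq | ⟨a, ha, c, hc, rfl⟩ | ⟨a, ha, c, hc, rfl⟩)
    · exact ext_fix h d q hq
    · dsimp only
      rw [map_sup, ext_fix h d a ha, ext_fix h d c hc]
    · dsimp only
      rw [map_inf, ext_fix h d a ha, ext_fix h d c hc]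

theorem le_ext_up (F : Finset X) (a : BFL X) : a ≤ ext (sub F true) a := by
  induction a using WithBot.recBotCoe with
  | bot => exact bot_le
  | coe a =>
    induction a using WithTop.recTopCoe with
    | top => exact le_refl (⊤ : BFL X)
    | coe a =>
      obtain ⟨t, rfl⟩ := FL.exists_cl a
      change em (FL.cl t) ≤ ext (sub F true) (em (FL.cl t))
      induction t with
      | var x =>
        rw [ext_em]
        change em (FL.gen x) ≤ sub F true x
        rw [sub]
        by_cases hx : x ∈ F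
        · rw [if_pos hx]
        · rw [if_neg hx]
          exact le_top
      | sup s t ihs iht =>
        rw [FL.cl_sup, em_sup, map_sup]
        exact sup_le_sup ihs iht
      | inf s t ihs iht =>
        rw [FL.cl_inf, em_inf, map_inf]
        exact inf_le_inf ihs iht

theorem ext_dn_le (F : Finset X) (a : BFL X) : ext (sub F false) a ≤ a := by
  induction a using WithBot.recBotCoe with
  | bot => exact le_refl (⊥ : BFL X)
  | coe a =>
    induction a using WithTop.recTopCoe with
    | top => exact le_top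
    | coe a =>
      obtain ⟨t, rfl⟩ := FL.exists_cl a
      change ext (sub F false) (em (FL.cl t)) ≤ em (FL.cl t)
      induction t with
      | var x =>
        rw [ext_em]
        change sub F false x ≤ em (FL.gen x)
        rw [sub]
        by_cases hx : x ∈ F
        · rw [if_pos hx]
        · rw [if_neg hx]
          exact bot_le
      | sup s t ihs iht =>
        rw [FL.cl_sup, em_sup, map_sup]
        exact sup_le_sup ihs iht
      | inf s t ihs iht =>
        rw [FL.cl_inf, em_inf, map_inf]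
        exact inf_le_inf ihs iht

/-- Labels. -/
abbrev LabT (X : Type u) : Type u := Finset X × BFL X

/-- Upper labels of a term. -/
def AT (t : Tm X) : Set (LabT X) :=
  {z | z.1 ⊆ vars t ∧ z.2 ∈ Dst z.1 (depth t) ∧ em (FL.cl t) ≤ z.2}

/-- Lower labels of a term. -/
def BT (t : Tm X) : Set (LabT X) :=
  {z | z.1 ⊆ vars t ∧ z.2 ∈ Dst z.1 (depth t) ∧ z.2 ≤ em (FL.cl t)}

/-- Labels above a label. -/
def upT (p : ℕ × LabT X) : Set (LabT X) :=
  {w | w.1 ⊆ p.2.1 ∧ w.2 ∈ Dst w.1 p.1 ∧ p.2.2 ≤ w.2}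

/-- The labels of depth at most `d` on `E`. -/
theorem finite_labT (E : Finset X) (d : ℕ) :
    {z : LabT X | z.1 ⊆ E ∧ z.2 ∈ Dst z.1 d}.Finite := by
  classical
  have h : {z : LabT X | z.1 ⊆ E ∧ z.2 ∈ Dst z.1 d} ⊆
      ⋃ D ∈ E.powerset, {D} ×ˢ Dst D d := by
    rintro ⟨D, U⟩ ⟨h1, h2⟩
    simp only [Set.mem_iUnion]
    exact ⟨D, Finset.mem_powerset.2 h1, rfl, h2⟩
  refine Set.Finite.subset ?_ h
  apply (Finset.finite_toSet E.powerset).biUnion
  intro D _
  exact (Set.finite_singleton D).prod (Dst_finite D d)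

/-- The normal form of a term. -/
def YT (t : Tm X) : Set (Set (LabT X)) :=
  upT '' {p | p.1 ≤ depth t ∧ p.2.1 ⊆ vars t ∧ p.2.2 ∈ Dst p.2.1 p.1 ∧ p.2.2 ≤ em (FL.cl t)}

theorem dnf_terms : Dnf (fun s t : Tm X => Wle s t) AT BT YT := by
  classical
  constructor
  · intro t
    apply Set.Finite.image
    apply Set.Finite.subset ((Set.finite_Iic (depth t)).prod (finite_labT (vars t) (depth t)))
    rintro ⟨d, z⟩ ⟨h1, h2, h3, _⟩
    exact ⟨h1, h2, Dst_mono_n _ h1 h3⟩
  · rintro t _ ⟨⟨d, z⟩, _, rfl⟩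
    exact (finite_labT z.1 d).subset (fun w hw => ⟨hw.1, hw.2.1⟩)
  · intro t
    exact ⟨(depth t, vars t, em (FL.cl t)), ⟨le_rfl, Finset.Subset.refl _, em_mem t, le_rfl⟩, rfl⟩
  · rintro t _ ⟨⟨d, z⟩, ⟨h1, h2, h3, h4⟩, rfl⟩
    exact ⟨z, ⟨Finset.Subset.refl _, h3, le_rfl⟩, h2, Dst_mono_n _ h1 h3, h4⟩
  · rintro t t' htt' _ ⟨⟨d, E, q⟩, ⟨h1, h2, h3, h4⟩, rfl⟩
    have hq : q ≤ em (FL.cl t') := h4.trans (em_le.2 htt')
    rcases le_or_gt d (depth t') with hd | hd
    · refine ⟨_, ⟨(d, E ∩ vars t', ext (sub (vars t') true) q), ⟨hd, Finset.inter_subset_right,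
        ext_mem d q h3, ?_⟩, rfl⟩, ?_⟩
      · have := OrderHomClass.mono (ext (sub (vars t') true)) hq
        rwa [ext_fix (Finset.Subset.refl _) _ _ (em_mem t')] at this
      · rintro ⟨D, c⟩ ⟨h5, h6, h7⟩
        exact ⟨h5.trans Finset.inter_subset_left, h6, (le_ext_up _ q).trans h7⟩
    · refine ⟨_, ⟨(depth t', vars t' ∩ E, ext (sub E false) (em (FL.cl t'))), ⟨le_rfl,
        Finset.inter_subset_left, ext_mem _ _ (em_mem t'), ext_dn_le _ _⟩, rfl⟩, ?_⟩
      rintro ⟨D, c⟩ ⟨h5, h6, h7⟩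
      refine ⟨h5.trans Finset.inter_subset_right, Dst_mono_n _ hd.le h6, le_trans ?_ h7⟩
      have := OrderHomClass.mono (ext (sub E false)) hq
      rwa [ext_fix (Finset.Subset.refl _) _ _ h3] at this
  · rintro t t' ⟨⟨D, c⟩, h1, h2⟩
    exact FL.cl_le.1 (em_le.1 (h1.2.2.trans h2.2.2))

end Pool.Agent.H74.FS
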