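import Pool.Agent.H74.FS.Defs
import Pool.Agent.H74.FS.Terms

/-!
# The local criterion: bounded representations of finite subsets
-/

namespace Pool.Agent.H74.FS

open Pool.Agent.H48.FreeSub Filter

universe u v w

/-- Renaming of variables. -/
def tmap {X : Type u} {Y : Type v} (ρ : X → Y) : Tm X → Tm Y
  | .var x => .var (ρ x)
  | .sup s t => .sup (tmap ρ s) (tmap ρ t)
  | .inf s t => .inf (tmap ρ s) (tmap ρ t)

theorem size_tmap {X : Type u} {Y : Type v} (ρ : X → Y) :
    ∀ t : Tm X, (tmap ρ t).size = t.size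
  | .var x => rfl
  | .sup s t => by simp only [tmap, Tm.size, size_tmap ρ s, size_tmap ρ t]
  | .inf s t => by simp only [tmap, Tm.size, size_tmap ρ s, size_tmap ρ t]

theorem Wle_tmap {X : Type u} {Y : Type v} (ρ : X → Y) {s t : Tm X} (h : Wle s t) :
    Wle (tmap ρ s) (tmap ρ t) := by
  induction h with
  | var x => exact .var _
  | sup_le _ _ ih1 ih2 => exact .sup_le ih1 ih2
  | le_inf _ _ ih1 ih2 => exact .le_inf ih1 ih2
  | inf_le_left _ ih => exact .inf_le_left ih
  | inf_le_right _ ih => exact .inf_le_right ih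
  | le_sup_left _ ih => exact .le_sup_left ih
  | le_sup_right _ ih => exact .le_sup_right ih

theorem tmap_tmap_eq {X : Type u} {Y : Type v} {ρ : X → Y} {ρ' : Y → X} :
    ∀ t : Tm X, (∀ x ∈ vars t, ρ' (ρ x) = x) → tmap ρ' (tmap ρ t) = t
  | .var x, h => by
    simp only [tmap]
    rw [h x (by simp [vars])]
  | .sup s t, h => by
    simp only [tmap]
    rw [tmap_tmap_eq s (fun x hx => h x (by simp [vars, hx])),
      tmap_tmap_eq t (fun x hx => h x (by simp [vars, hx]))]
  | .inf s t, h => by
    simp only [tmap]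
    rw [tmap_tmap_eq s (fun x hx => h x (by simp [vars, hx])),
      tmap_tmap_eq t (fun x hx => h x (by simp [vars, hx]))]

theorem nonempty_of_tm {X : Type u} : Tm X → Nonempty X
  | .var x => ⟨x⟩
  | .sup s _ => nonempty_of_tm s
  | .inf s _ => nonempty_of_tm s

theorem locallyBounded_of_embedding {L : Type u} [Lattice L] {X : Type u}
    (φ : LatticeHom L (FL X)) (hφ : Function.Injective φ) : LocallyBounded L := by
  classical
  have hle : ∀ a b, φ a ≤ φ b ↔ a ≤ b := fun a b => by
    constructor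
    · intro h
      have : φ (a ⊔ b) = φ b := by rw [SupHomClass.map_sup]; exact sup_eq_right.2 h
      exact sup_eq_right.1 (hφ this)
    · intro h
      exact OrderHomClass.mono φ h
  choose τ hτ using fun a => FL.exists_cl (φ a)
  refine ⟨fun b => (τ b).size, fun E => ?_⟩
  rcases isEmpty_or_nonempty X with hX | hX
  · have hL : IsEmpty L := ⟨fun a => by
      obtain ⟨x⟩ := nonempty_of_tm (τ a)
      exact hX.elim x⟩
    exact ⟨fun a => hL.elim a, fun b => hL.elim b, fun b => hL.elim b, fun b => hL.elim b,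
      fun b => hL.elim b⟩
  let Y : Finset X := E.biUnion (fun b => vars (τ b))
  obtain ⟨ρ, hρ⟩ := Set.countable_iff_exists_injOn.1 (Y.finite_toSet.countable)
  let ρ' : ℕ → X := Function.invFunOn ρ Y
  have hρ' : ∀ x ∈ Y, ρ' (ρ x) = x := fun x hx => hρ.leftInvOn_invFunOn hx
  have hinv : ∀ b ∈ E, tmap ρ' (tmap ρ (τ b)) = τ b := fun b hb =>
    tmap_tmap_eq _ (fun x hx => hρ' x (Finset.mem_biUnion.2 ⟨b, hb, hx⟩))
  refine ⟨fun b => tmap ρ (τ b), fun b _ => (size_tmap ρ (τ b)).le, ?_, ?_, ?_⟩
  · intro a ha b hb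
    rw [FL.cl_le, ← hle, ← hτ, ← hτ, FL.cl_le]
    constructor
    · intro h
      have := Wle_tmap ρ' h
      rwa [hinv a ha, hinv b hb] at this
    · exact Wle_tmap ρ
  · intro a ha b hb _
    have h1 : FL.cl (τ (a ⊔ b)) = FL.cl (.sup (τ a) (τ b)) := by
      rw [FL.cl_sup, hτ, hτ, hτ, SupHomClass.map_sup]
    rw [← FL.cl_sup]
    apply le_antisymm
    · rw [FL.cl_le]
      exact Wle_tmap ρ (t := .sup (τ a) (τ b)) (FL.cl_le.1 h1.le)
    · rw [FL.cl_le]
      exact Wle_tmap ρ (s := .sup (τ a) (τ b)) (FL.cl_le.1 h1.ge)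
  · intro a ha b hb _
    have h1 : FL.cl (τ (a ⊓ b)) = FL.cl (.inf (τ a) (τ b)) := by
      rw [FL.cl_inf, hτ, hτ, hτ, InfHomClass.map_inf]
    rw [← FL.cl_inf]
    apply le_antisymm
    · rw [FL.cl_le]
      exact Wle_tmap ρ (t := .inf (τ a) (τ b)) (FL.cl_le.1 h1.le)
    · rw [FL.cl_le]
      exact Wle_tmap ρ (s := .inf (τ a) (τ b)) (FL.cl_le.1 h1.ge)

/-! ### Whitman's algorithm as equivalences -/

section

variable {X : Type u}

theorem Wle_sup_iff {s1 s2 t : Tm X} : Wle (.sup s1 s2) t ↔ Wle s1 t ∧ Wle s2 t := by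
  constructor
  · intro h
    exact ⟨Tm.Wle_trans (.le_sup_left (Tm.Wle_refl _)) h,
      Tm.Wle_trans (.le_sup_right (Tm.Wle_refl _)) h⟩
  · exact fun h => .sup_le h.1 h.2

theorem Wle_inf_iff {s t1 t2 : Tm X} : Wle s (.inf t1 t2) ↔ Wle s t1 ∧ Wle s t2 := by
  constructor
  · intro h
    exact ⟨Tm.Wle_trans h (.inf_le_left (Tm.Wle_refl _)),
      Tm.Wle_trans h (.inf_le_right (Tm.Wle_refl _))⟩
  · exact fun h => .le_inf h.1 h.2

theorem Wle_var_var {x y : X} : Wle (.var x) (.var y) ↔ x = y := by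
  constructor
  · intro h
    cases h
    rfl
  · rintro rfl
    exact .var _

theorem Wle_var_sup {x : X} {t1 t2 : Tm X} :
    Wle (.var x) (.sup t1 t2) ↔ Wle (.var x) t1 ∨ Wle (.var x) t2 := by
  constructor
  · intro h
    cases h with
    | le_sup_left h => exact Or.inl h
    | le_sup_right h => exact Or.inr h
  · rintro (h | h)
    · exact .le_sup_left h
    · exact .le_sup_right h

theorem Wle_inf_var {y : X} {s1 s2 : Tm X} :
    Wle (.inf s1 s2) (.var y) ↔ Wle s1 (.var y) ∨ Wle s2 (.var y) := by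
  constructor
  · intro h
    cases h with
    | inf_le_left h => exact Or.inl h
    | inf_le_right h => exact Or.inr h
  · rintro (h | h)
    · exact .inf_le_left h
    · exact .inf_le_right h

theorem Wle_inf_sup {s1 s2 t1 t2 : Tm X} : Wle (.inf s1 s2) (.sup t1 t2) ↔
    (Wle s1 (.sup t1 t2) ∨ Wle s2 (.sup t1 t2)) ∨
      (Wle (.inf s1 s2) t1 ∨ Wle (.inf s1 s2) t2) := by
  constructor
  · intro h
    cases h with
    | inf_le_left h => exact Or.inl (Or.inl h)
    | inf_le_right h => exact Or.inl (Or.inr h)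
    | le_sup_left h => exact Or.inr (Or.inl h)
    | le_sup_right h => exact Or.inr (Or.inr h)
  · rintro ((h | h) | (h | h))
    · exact .inf_le_left h
    · exact .inf_le_right h
    · exact .le_sup_left h
    · exact .le_sup_right h

end

/-! ### Ultraproducts -/

section

variable {I : Type u} (U : Ultrafilter I)

/-- The germ of an index function. -/
def gm (x : I → ℕ) : Germ (U : Filter I) ℕ := (x : Germ (U : Filter I) ℕ)

theorem los : ∀ (n : ℕ) (s t : Tm (I → ℕ)), s.size + t.size ≤ n →
    (Wle (tmap (gm U) s) (tmap (gm U) t) ↔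
      ∀ᶠ E in (U : Filter I), Wle (tmap (fun x => x E) s) (tmap (fun x => x E) t)) := by
  intro n
  induction n with
  | zero =>
    intro s t h
    exfalso
    have : 0 < s.size := by cases s <;> simp [Tm.size]
    omega
  | succ n ih =>
    intro s t h
    cases s with
    | sup s1 s2 =>
      simp only [Tm.size] at h
      simp only [tmap]
      rw [Wle_sup_iff, ih s1 t (by omega), ih s2 t (by omega), ← eventually_and]
      simp only [Wle_sup_iff]
    | var x =>
      cases t with
      | inf t1 t2 =>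
        simp only [Tm.size] at h
        have h1 := ih (.var x) t1 (by simp only [Tm.size]; omega)
        have h2 := ih (.var x) t2 (by simp only [Tm.size]; omega)
        simp only [tmap] at h1 h2 ⊢
        rw [Wle_inf_iff, h1, h2, ← eventually_and]
        simp only [Wle_inf_iff]
      | var y =>
        simp only [tmap, Wle_var_var]
        exact Germ.coe_eq
      | sup t1 t2 =>
        simp only [Tm.size] at h
        have h1 := ih (.var x) t1 (by simp only [Tm.size]; omega)
        have h2 := ih (.var x) t2 (by simp only [Tm.size]; omega)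
        simp only [tmap] at h1 h2 ⊢
        simp only [Wle_var_sup]
        rw [h1, h2, Ultrafilter.eventually_or]
    | inf s1 s2 =>
      cases t with
      | inf t1 t2 =>
        simp only [Tm.size] at h
        have h1 := ih (.inf s1 s2) t1 (by simp only [Tm.size]; omega)
        have h2 := ih (.inf s1 s2) t2 (by simp only [Tm.size]; omega)
        simp only [tmap] at h1 h2 ⊢
        rw [Wle_inf_iff, h1, h2, ← eventually_and]
        simp only [Wle_inf_iff]
      | var y =>
        simp only [Tm.size] at h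
        have h1 := ih s1 (.var y) (by simp only [Tm.size]; omega)
        have h2 := ih s2 (.var y) (by simp only [Tm.size]; omega)
        simp only [tmap] at h1 h2 ⊢
        simp only [Wle_inf_var]
        rw [h1, h2, Ultrafilter.eventually_or]
      | sup t1 t2 =>
        simp only [Tm.size] at h
        have h1 := ih s1 (.sup t1 t2) (by simp only [Tm.size]; omega)
        have h2 := ih s2 (.sup t1 t2) (by simp only [Tm.size]; omega)
        have h3 := ih (.inf s1 s2) t1 (by simp only [Tm.size]; omega)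
        have h4 := ih (.inf s1 s2) t2 (by simp only [Tm.size]; omega)
        simp only [tmap] at h1 h2 h3 h4 ⊢
        rw [Wle_inf_sup, h1, h2, h3, h4, ← Ultrafilter.eventually_or,
          ← Ultrafilter.eventually_or, ← Ultrafilter.eventually_or]
        simp only [Wle_inf_sup]

theorem exists_lim : ∀ (n : ℕ) (g : I → Tm ℕ), (∀ᶠ E in (U : Filter I), (g E).size ≤ n) →
    ∃ t : Tm (I → ℕ), ∀ᶠ E in (U : Filter I), tmap (fun x => x E) t = g E := by
  intro n
  induction n with
  | zero =>
    intro g hg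
    exfalso
    obtain ⟨E, hE⟩ := hg.exists
    have : 0 < (g E).size := by cases g E <;> simp [Tm.size]
    omega
  | succ n ih =>
    intro g hg
    have key : ∀ᶠ E in (U : Filter I), (∃ k, g E = .var k) ∨
        ((∃ p : Tm ℕ × Tm ℕ, g E = .sup p.1 p.2 ∧ p.1.size ≤ n ∧ p.2.size ≤ n) ∨
          ∃ p : Tm ℕ × Tm ℕ, g E = .inf p.1 p.2 ∧ p.1.size ≤ n ∧ p.2.size ≤ n) := by
      filter_upwards [hg] with E hE
      cases hgE : g E with
      | var k => exact Or.inl ⟨k, rfl⟩
      | sup s t =>
        rw [hgE] at hE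
        simp only [Tm.size] at hE
        exact Or.inr (Or.inl ⟨(s, t), rfl, by dsimp only; omega, by dsimp only; omega⟩)
      | inf s t =>
        rw [hgE] at hE
        simp only [Tm.size] at hE
        exact Or.inr (Or.inr ⟨(s, t), rfl, by dsimp only; omega, by dsimp only; omega⟩)
    rw [Ultrafilter.eventually_or, Ultrafilter.eventually_or] at key
    rcases key with h | h | h
    · have h' : ∀ E, ∃ k, (∃ k, g E = .var k) → g E = .var k := fun E => by
        by_cases hE : ∃ k, g E = .var k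
        · obtain ⟨k, hk⟩ := hE
          exact ⟨k, fun _ => hk⟩
        · exact ⟨0, fun h => (hE h).elim⟩
      choose x hx using h'
      refine ⟨.var x, ?_⟩
      filter_upwards [h] with E hE
      rw [hx E hE]
      rfl
    · have h' : ∀ E, ∃ p : Tm ℕ × Tm ℕ,
          (∃ p : Tm ℕ × Tm ℕ, g E = .sup p.1 p.2 ∧ p.1.size ≤ n ∧ p.2.size ≤ n) →
            g E = .sup p.1 p.2 ∧ p.1.size ≤ n ∧ p.2.size ≤ n := fun E => by
        by_cases hE : ∃ p : Tm ℕ × Tm ℕ, g E = .sup p.1 p.2 ∧ p.1.size ≤ n ∧ p.2.size ≤ n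
        · obtain ⟨k, hk⟩ := hE
          exact ⟨k, fun _ => hk⟩
        · exact ⟨(.var 0, .var 0), fun h => (hE h).elim⟩
      choose p hp using h'
      obtain ⟨s, hs⟩ := ih (fun E => (p E).1) (by
        filter_upwards [h] with E hE using (hp E hE).2.1)
      obtain ⟨t, ht⟩ := ih (fun E => (p E).2) (by
        filter_upwards [h] with E hE using (hp E hE).2.2)
      refine ⟨.sup s t, ?_⟩
      filter_upwards [h, hs, ht] with E hE h1 h2
      rw [(hp E hE).1, tmap, h1, h2]
    · have h' : ∀ E, ∃ p : Tm ℕ × Tm ℕ,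
          (∃ p : Tm ℕ × Tm ℕ, g E = .inf p.1 p.2 ∧ p.1.size ≤ n ∧ p.2.size ≤ n) →
            g E = .inf p.1 p.2 ∧ p.1.size ≤ n ∧ p.2.size ≤ n := fun E => by
        by_cases hE : ∃ p : Tm ℕ × Tm ℕ, g E = .inf p.1 p.2 ∧ p.1.size ≤ n ∧ p.2.size ≤ n
        · obtain ⟨k, hk⟩ := hE
          exact ⟨k, fun _ => hk⟩
        · exact ⟨(.var 0, .var 0), fun h => (hE h).elim⟩
      choose p hp using h'
      obtain ⟨s, hs⟩ := ih (fun E => (p E).1) (by
        filter_upwards [h] with E hE using (hp E hE).2.1)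
      obtain ⟨t, ht⟩ := ih (fun E => (p E).2) (by
        filter_upwards [h] with E hE using (hp E hE).2.2)
      refine ⟨.inf s t, ?_⟩
      filter_upwards [h, hs, ht] with E hE h1 h2
      rw [(hp E hE).1, tmap, h1, h2]

end

theorem embedsInFree_of_locallyBounded {L : Type u} [Lattice L] (h : LocallyBounded L) :
    EmbedsInFree L := by
  classical
  obtain ⟨n, hn⟩ := h
  choose h h1 h2 h3 h4 using hn
  let U : Ultrafilter (Finset L) := Ultrafilter.of atTop
  have hU : ∀ b : L, ∀ᶠ E in (U : Filter (Finset L)), b ∈ E := by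
    intro b
    have : ∀ᶠ E in (atTop : Filter (Finset L)), b ∈ E := by
      filter_upwards [eventually_ge_atTop {b}] with E hE
      exact hE (Finset.mem_singleton_self b)
    exact this.filter_mono (Ultrafilter.of_le _)
  have hlim : ∀ b : L, ∃ t : Tm (Finset L → ℕ),
      ∀ᶠ E in (U : Filter (Finset L)), tmap (fun x => x E) t = h E b := by
    intro b
    apply exists_lim U (n b)
    filter_upwards [hU b] with E hE using h1 E b hE
  choose t ht using hlim
  rw [embedsInFree_iff]
  have hle : ∀ s r : Tm (Finset L → ℕ), FL.cl (tmap (gm U) s) ≤ FL.cl (tmap (gm U) r) ↔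
      ∀ᶠ E in (U : Filter (Finset L)), Wle (tmap (fun x => x E) s) (tmap (fun x => x E) r) :=
    fun s r => FL.cl_le.trans (los U _ s r le_rfl)
  refine ⟨Germ (U : Filter (Finset L)) ℕ,
    { toFun := fun b => FL.cl (tmap (gm U) (t b)), map_sup' := ?_, map_inf' := ?_ }, ?_⟩
  · intro a b
    change FL.cl (tmap (gm U) (t (a ⊔ b))) = FL.cl (tmap (gm U) (.sup (t a) (t b)))
    apply le_antisymm
    · rw [hle]
      filter_upwards [hU a, hU b, hU (a ⊔ b), ht a, ht b, ht (a ⊔ b)] with E ha hb hab ta tb tab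
      rw [tmap, ta, tb, tab, ← FL.cl_le, FL.cl_sup, h3 E a ha b hb hab]
    · rw [hle]
      filter_upwards [hU a, hU b, hU (a ⊔ b), ht a, ht b, ht (a ⊔ b)] with E ha hb hab ta tb tab
      rw [tmap, ta, tb, tab, ← FL.cl_le, FL.cl_sup, h3 E a ha b hb hab]
  · intro a b
    change FL.cl (tmap (gm U) (t (a ⊓ b))) = FL.cl (tmap (gm U) (.inf (t a) (t b)))
    apply le_antisymm
    · rw [hle]
      filter_upwards [hU a, hU b, hU (a ⊓ b), ht a, ht b, ht (a ⊓ b)] with E ha hb hab ta tb tab
      rw [tmap, ta, tb, tab, ← FL.cl_le, FL.cl_inf, h4 E a ha b hb hab]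
    · rw [hle]
      filter_upwards [hU a, hU b, hU (a ⊓ b), ht a, ht b, ht (a ⊓ b)] with E ha hb hab ta tb tab
      rw [tmap, ta, tb, tab, ← FL.cl_le, FL.cl_inf, h4 E a ha b hb hab]
  · intro a b hab
    have key : ∀ a b : L, FL.cl (tmap (gm U) (t a)) ≤ FL.cl (tmap (gm U) (t b)) → a ≤ b := by
      intro a b hab
      rw [hle] at hab
      obtain ⟨E, hE, ha, hb, ta, tb⟩ := (hab.and ((hU a).and ((hU b).and ((ht a).and (ht b))))).exists
      rw [ta, tb, ← FL.cl_le, h2 E a ha b hb] at hE
      exact hE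
    have hab' : FL.cl (tmap (gm U) (t a)) = FL.cl (tmap (gm U) (t b)) := hab
    exact le_antisymm (key a b hab'.le) (key b a hab'.ge)

end Pool.Agent.H74.FS
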