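import Pool.Agent.H74.FS.Core
import Pool.Agent.H74.FS.Terms

/-!
# The node system of a sublattice of a free lattice
-/

namespace Pool.Agent.H74.FS

open Pool.Agent.H48.FreeSub

universe u

section Fin

variable {K : Type u} [Lattice K] [Nonempty K]

theorem bsup_insert {b : K} {B : Set K} (hf : B.Finite) (hn : B.Nonempty) :
    bsup (insert b B) = b ⊔ bsup B := by
  apply le_antisymm
  · apply bsup_le (hf.insert _) ⟨b, Or.inl rfl⟩
    rintro x (rfl | hx)
    · exact le_sup_left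
    · exact (le_bsup hf hx).trans le_sup_right
  · apply sup_le (le_bsup (hf.insert _) (Or.inl rfl))
    exact bsup_le hf hn (fun x hx => le_bsup (hf.insert _) (Or.inr hx))

theorem binf_insert {b : K} {B : Set K} (hf : B.Finite) (hn : B.Nonempty) :
    binf (insert b B) = b ⊓ binf B := by
  apply le_antisymm
  · apply le_inf (binf_le (hf.insert _) (Or.inl rfl))
    exact le_binf hf hn (fun x hx => binf_le (hf.insert _) (Or.inr hx))
  · apply le_binf (hf.insert _) ⟨b, Or.inl rfl⟩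
    rintro x (rfl | hx)
    · exact inf_le_left
    · exact inf_le_right.trans (binf_le hf hx)

theorem bsup_singleton (b : K) : bsup {b} = b :=
  le_antisymm (bsup_le (Set.finite_singleton b) ⟨b, rfl⟩ (by rintro x rfl; exact le_rfl))
    (le_bsup (Set.finite_singleton b) rfl)

theorem binf_singleton (b : K) : binf {b} = b :=
  le_antisymm (binf_le (Set.finite_singleton b) rfl)
    (le_binf (Set.finite_singleton b) ⟨b, rfl⟩ (by rintro x rfl; exact le_rfl))

theorem prime_fin {x : K} {E : K → Prop} (hE : ∀ c d, E c → c ≤ d → E d)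
    (h : ∀ c d, x ≤ c ⊔ d → E (c ⊔ d) ∨ x ≤ c ∨ x ≤ d) {B : Set K} (hf : B.Finite)
    (hn : B.Nonempty) (hx : x ≤ bsup B) : E (bsup B) ∨ ∃ c ∈ B, x ≤ c := by
  induction B, hf using Set.Finite.induction_on with
  | empty => exact absurd hn (by simp)
  | @insert b B hb hB ih =>
    rcases B.eq_empty_or_nonempty with rfl | hn'
    · rw [insert_empty_eq, bsup_singleton] at hx
      exact Or.inr ⟨b, by simp, hx⟩
    · rw [bsup_insert hB hn'] at hx ⊢
      rcases h _ _ hx with h1 | h1 | h1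
      · exact Or.inl h1
      · exact Or.inr ⟨b, Or.inl rfl, h1⟩
      · rcases ih hn' h1 with h2 | ⟨c, hc, h2⟩
        · exact Or.inl (hE _ _ h2 le_sup_right)
        · exact Or.inr ⟨c, Or.inr hc, h2⟩

theorem prime_fin' {x : K} {E : K → Prop} (hE : ∀ c d, E c → d ≤ c → E d)
    (h : ∀ c d, c ⊓ d ≤ x → E (c ⊓ d) ∨ c ≤ x ∨ d ≤ x) {B : Set K} (hf : B.Finite)
    (hn : B.Nonempty) (hx : binf B ≤ x) : E (binf B) ∨ ∃ c ∈ B, c ≤ x := by
  induction B, hf using Set.Finite.induction_on with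
  | empty => exact absurd hn (by simp)
  | @insert b B hb hB ih =>
    rcases B.eq_empty_or_nonempty with rfl | hn'
    · rw [insert_empty_eq, binf_singleton] at hx
      exact Or.inr ⟨b, by simp, hx⟩
    · rw [binf_insert hB hn'] at hx ⊢
      rcases h _ _ hx with h1 | h1 | h1
      · exact Or.inl h1
      · exact Or.inr ⟨b, Or.inl rfl, h1⟩
      · rcases ih hn' h1 with h2 | ⟨c, hc, h2⟩
        · exact Or.inl (hE _ _ h2 inf_le_right)
        · exact Or.inr ⟨c, Or.inr hc, h2⟩

end Fin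

variable {X : Type u}

/-- Generators are meet prime. -/
theorem gen_prime' {x : X} {c d : FL X} (h : c ⊓ d ≤ FL.gen x) :
    c ≤ FL.gen x ∨ d ≤ FL.gen x := by
  obtain ⟨u, rfl⟩ := FL.exists_cl c
  obtain ⟨v, rfl⟩ := FL.exists_cl d
  rw [FL.gen, ← FL.cl_inf, FL.cl_le] at h
  rw [FL.gen, FL.cl_le, FL.cl_le]
  cases h with
  | inf_le_left h => exact Or.inl h
  | inf_le_right h => exact Or.inr h

section

variable [Nonempty (FL X)]

theorem fl_whitman {A B : Set (FL X)} (hA : A.Finite) (hAn : A.Nonempty) (hB : B.Finite)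
    (hBn : B.Nonempty) (h : binf A ≤ bsup B) : (∃ a ∈ A, a ≤ bsup B) ∨ ∃ b ∈ B, binf A ≤ b := by
  induction A, hA using Set.Finite.induction_on with
  | empty => exact absurd hAn (by simp)
  | @insert a A ha hA ih =>
    rcases A.eq_empty_or_nonempty with rfl | hn'
    · rw [insert_empty_eq, binf_singleton] at h
      exact Or.inl ⟨a, by simp, h⟩
    · rw [binf_insert hA hn'] at h ⊢
      rcases prime_fin (x := a ⊓ binf A) (E := fun c => a ≤ c ∨ binf A ≤ c)
        (fun c d hc hcd => hc.imp (fun h => h.trans hcd) (fun h => h.trans hcd))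
        (fun c d hcd => by
          rcases FL.whitman hcd with h1 | h1 | h1 | h1
          · exact Or.inl (Or.inl h1)
          · exact Or.inl (Or.inr h1)
          · exact Or.inr (Or.inl h1)
          · exact Or.inr (Or.inr h1)) hB hBn h with (h1 | h1) | ⟨c, hc, h1⟩
      · exact Or.inl ⟨a, Or.inl rfl, h1⟩
      · rcases ih hn' h1 with ⟨c, hc, h2⟩ | ⟨b, hb, h2⟩
        · exact Or.inl ⟨c, Or.inr hc, h2⟩
        · exact Or.inr ⟨b, hb, inf_le_right.trans h2⟩
      · exact Or.inr ⟨c, hc, h1⟩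

end

/-- Join refinements of a term. -/
def JT : Tm X → Set (Set (Tm X))
  | .var _ => ∅
  | .sup s t => (fun p : Set (Tm X) × Set (Tm X) => p.1 ∪ p.2) ''
      ((insert {s} (JT s)) ×ˢ (insert {t} (JT t)))
  | .inf s t => JT s ∪ JT t

/-- Meet refinements of a term. -/
def QT : Tm X → Set (Set (Tm X))
  | .var _ => ∅
  | .inf s t => (fun p : Set (Tm X) × Set (Tm X) => p.1 ∪ p.2) ''
      ((insert {s} (QT s)) ×ˢ (insert {t} (QT t)))
  | .sup s t => QT s ∪ QT t

/-- Subterms. -/
def subt : Tm X → Set (Tm X)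
  | .var x => {.var x}
  | .sup s t => insert (.sup s t) (subt s ∪ subt t)
  | .inf s t => insert (.inf s t) (subt s ∪ subt t)

theorem mem_subt (t : Tm X) : t ∈ subt t := by cases t <;> simp [subt]

theorem subt_finite : ∀ t : Tm X, (subt t).Finite
  | .var x => Set.finite_singleton _
  | .sup s t => ((subt_finite s).union (subt_finite t)).insert _
  | .inf s t => ((subt_finite s).union (subt_finite t)).insert _

theorem subt_trans : ∀ t u : Tm X, u ∈ subt t → subt u ⊆ subt t
  | .var x, u, h => by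
    rw [subt, Set.mem_singleton_iff] at h
    rw [h]
  | .sup s t, u, h => by
    rcases h with rfl | h | h
    · exact Set.Subset.refl _
    · exact (subt_trans s u h).trans (fun x hx => Or.inr (Or.inl hx))
    · exact (subt_trans t u h).trans (fun x hx => Or.inr (Or.inr hx))
  | .inf s t, u, h => by
    rcases h with rfl | h | h
    · exact Set.Subset.refl _
    · exact (subt_trans s u h).trans (fun x hx => Or.inr (Or.inl hx))
    · exact (subt_trans t u h).trans (fun x hx => Or.inr (Or.inr hx))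

theorem JT_sub : ∀ t : Tm X, ∀ V ∈ JT t, V ⊆ subt t
  | .var x => by simp [JT]
  | .sup s t => by
    rintro _ ⟨⟨V1, V2⟩, ⟨h1, h2⟩, rfl⟩
    rintro x (hx | hx)
    · rcases h1 with h1 | h1
      · rw [h1, Set.mem_singleton_iff] at hx
        subst hx
        exact Or.inr (Or.inl (mem_subt _))
      · exact Or.inr (Or.inl (JT_sub s _ h1 hx))
    · rcases h2 with h2 | h2
      · rw [h2, Set.mem_singleton_iff] at hx
        subst hx
        exact Or.inr (Or.inr (mem_subt _))
      · exact Or.inr (Or.inr (JT_sub t _ h2 hx))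
  | .inf s t => by
    rintro V (h | h) x hx
    · exact Or.inr (Or.inl (JT_sub s _ h hx))
    · exact Or.inr (Or.inr (JT_sub t _ h hx))

theorem QT_sub : ∀ t : Tm X, ∀ V ∈ QT t, V ⊆ subt t
  | .var x => by simp [QT]
  | .inf s t => by
    rintro _ ⟨⟨V1, V2⟩, ⟨h1, h2⟩, rfl⟩
    rintro x (hx | hx)
    · rcases h1 with h1 | h1
      · rw [h1, Set.mem_singleton_iff] at hx
        subst hx
        exact Or.inr (Or.inl (mem_subt _))
      · exact Or.inr (Or.inl (QT_sub s _ h1 hx))
    · rcases h2 with h2 | h2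
      · rw [h2, Set.mem_singleton_iff] at hx
        subst hx
        exact Or.inr (Or.inr (mem_subt _))
      · exact Or.inr (Or.inr (QT_sub t _ h2 hx))
  | .sup s t => by
    rintro V (h | h) x hx
    · exact Or.inr (Or.inl (QT_sub s _ h hx))
    · exact Or.inr (Or.inr (QT_sub t _ h hx))

theorem size_le_of_subt : ∀ t u : Tm X, u ∈ subt t → u = t ∨ u.size < t.size
  | .var x, u, h => Or.inl h
  | .sup s t, u, h => by
    rcases h with rfl | h | h
    · exact Or.inl rfl
    · right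
      simp only [Tm.size]
      rcases size_le_of_subt s u h with rfl | h
      · omega
      · omega
    · right
      simp only [Tm.size]
      rcases size_le_of_subt t u h with rfl | h
      · omega
      · omega
  | .inf s t, u, h => by
    rcases h with rfl | h | h
    · exact Or.inl rfl
    · right
      simp only [Tm.size]
      rcases size_le_of_subt s u h with rfl | h
      · omega
      · omega
    · right
      simp only [Tm.size]
      rcases size_le_of_subt t u h with rfl | h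
      · omega
      · omega

theorem size_le_subt {t u : Tm X} (h : u ∈ subt t) : u.size ≤ t.size := by
  rcases size_le_of_subt t u h with rfl | h
  · exact le_rfl
  · exact h.le

theorem JT_rank : ∀ t : Tm X, ∀ V ∈ JT t, ∀ v ∈ V, v.size < t.size
  | .var x => by simp [JT]
  | .sup s t => by
    rintro _ ⟨⟨V1, V2⟩, ⟨h1, h2⟩, rfl⟩
    rintro x (hx | hx)
    · have : x.size ≤ s.size := by
        rcases h1 with h1 | h1
        · rw [h1, Set.mem_singleton_iff] at hx
          rw [hx]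
        · exact size_le_subt (JT_sub s _ h1 hx)
      simp only [Tm.size]
      omega
    · have : x.size ≤ t.size := by
        rcases h2 with h2 | h2
        · rw [h2, Set.mem_singleton_iff] at hx
          rw [hx]
        · exact size_le_subt (JT_sub t _ h2 hx)
      simp only [Tm.size]
      omega
  | .inf s t => by
    rintro V (h | h) x hx
    · have := size_le_subt (JT_sub s _ h hx)
      simp only [Tm.size]
      omega
    · have := size_le_subt (JT_sub t _ h hx)
      simp only [Tm.size]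
      omega

theorem QT_rank : ∀ t : Tm X, ∀ V ∈ QT t, ∀ v ∈ V, v.size < t.size
  | .var x => by simp [QT]
  | .inf s t => by
    rintro _ ⟨⟨V1, V2⟩, ⟨h1, h2⟩, rfl⟩
    rintro x (hx | hx)
    · have : x.size ≤ s.size := by
        rcases h1 with h1 | h1
        · rw [h1, Set.mem_singleton_iff] at hx
          rw [hx]
        · exact size_le_subt (QT_sub s _ h1 hx)
      simp only [Tm.size]
      omega
    · have : x.size ≤ t.size := by
        rcases h2 with h2 | h2
        · rw [h2, Set.mem_singleton_iff] at hx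
          rw [hx]
        · exact size_le_subt (QT_sub t _ h2 hx)
      simp only [Tm.size]
      omega
  | .sup s t => by
    rintro V (h | h) x hx
    · have := size_le_subt (QT_sub s _ h hx)
      simp only [Tm.size]
      omega
    · have := size_le_subt (QT_sub t _ h hx)
      simp only [Tm.size]
      omega

theorem JT_fin : ∀ t : Tm X, (JT t).Finite
  | .var _ => Set.finite_empty
  | .sup s t => (((JT_fin s).insert _).prod ((JT_fin t).insert _)).image _
  | .inf s t => (JT_fin s).union (JT_fin t)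

theorem QT_fin : ∀ t : Tm X, (QT t).Finite
  | .var _ => Set.finite_empty
  | .inf s t => (((QT_fin s).insert _).prod ((QT_fin t).insert _)).image _
  | .sup s t => (QT_fin s).union (QT_fin t)

theorem JT_nonempty : ∀ t : Tm X, ∀ V ∈ JT t, V.Nonempty
  | .var x => by simp [JT]
  | .sup s t => by
    rintro _ ⟨⟨V1, V2⟩, ⟨h1, h2⟩, rfl⟩
    apply Set.Nonempty.inl
    rcases h1 with h1 | h1
    · rw [h1]
      exact ⟨s, rfl⟩
    · exact JT_nonempty s _ h1
  | .inf s t => by
    rintro V (h | h)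
    · exact JT_nonempty s _ h
    · exact JT_nonempty t _ h

theorem QT_nonempty : ∀ t : Tm X, ∀ V ∈ QT t, V.Nonempty
  | .var x => by simp [QT]
  | .inf s t => by
    rintro _ ⟨⟨V1, V2⟩, ⟨h1, h2⟩, rfl⟩
    apply Set.Nonempty.inl
    rcases h1 with h1 | h1
    · rw [h1]
      exact ⟨s, rfl⟩
    · exact QT_nonempty s _ h1
  | .sup s t => by
    rintro V (h | h)
    · exact QT_nonempty s _ h
    · exact QT_nonempty t _ h

theorem JT_sound : ∀ t : Tm X, ∀ V ∈ JT t, ∀ u, (∀ v ∈ V, Wle v u) → Wle t u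
  | .var x => by simp [JT]
  | .sup s t => by
    rintro _ ⟨⟨V1, V2⟩, ⟨h1, h2⟩, rfl⟩ u hu
    apply Wle.sup_le
    · rcases h1 with h1 | h1
      · exact hu s (Or.inl (by rw [h1]; rfl))
      · exact JT_sound s _ h1 u (fun v hv => hu v (Or.inl hv))
    · rcases h2 with h2 | h2
      · exact hu t (Or.inr (by rw [h2]; rfl))
      · exact JT_sound t _ h2 u (fun v hv => hu v (Or.inr hv))
  | .inf s t => by
    rintro V (h | h) u hu
    · exact .inf_le_left (JT_sound s _ h u hu)
    · exact .inf_le_right (JT_sound t _ h u hu)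

theorem QT_sound : ∀ t : Tm X, ∀ V ∈ QT t, ∀ u, (∀ v ∈ V, Wle u v) → Wle u t
  | .var x => by simp [QT]
  | .inf s t => by
    rintro _ ⟨⟨V1, V2⟩, ⟨h1, h2⟩, rfl⟩ u hu
    apply Wle.le_inf
    · rcases h1 with h1 | h1
      · exact hu s (Or.inl (by rw [h1]; rfl))
      · exact QT_sound s _ h1 u (fun v hv => hu v (Or.inl hv))
    · rcases h2 with h2 | h2
      · exact hu t (Or.inr (by rw [h2]; rfl))
      · exact QT_sound t _ h2 u (fun v hv => hu v (Or.inr hv))
  | .sup s t => by
    rintro V (h | h) u hu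
    · exact .le_sup_left (QT_sound s _ h u hu)
    · exact .le_sup_right (QT_sound t _ h u hu)

section

variable [Nonempty (FL X)]

theorem le_of_cov {t : Tm X} {V : Set (Tm X)} (hV : V.Finite)
    (h : Cov (fun s t => Wle s t) JT t V) : FL.cl t ≤ bsup (FL.cl '' V) := by
  rcases h with ⟨v, hv, h⟩ | ⟨V', hV', h⟩
  · exact (FL.cl_le.2 h).trans (le_bsup (hV.image _) ⟨v, hv, rfl⟩)
  · obtain ⟨u, hu⟩ := FL.exists_cl (bsup (FL.cl '' V))
    rw [← hu, FL.cl_le]
    apply JT_sound t V' hV' u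
    intro v' hv'
    obtain ⟨v, hv, h1⟩ := h v' hv'
    rw [← FL.cl_le, hu]
    exact (FL.cl_le.2 h1).trans (le_bsup (hV.image _) ⟨v, hv, rfl⟩)

theorem le_of_cov' {t : Tm X} {V : Set (Tm X)} (hV : V.Finite)
    (h : Cov (fun s t => Wle t s) QT t V) : binf (FL.cl '' V) ≤ FL.cl t := by
  rcases h with ⟨v, hv, h⟩ | ⟨V', hV', h⟩
  · exact (binf_le (hV.image _) ⟨v, hv, rfl⟩).trans (FL.cl_le.2 h)
  · obtain ⟨u, hu⟩ := FL.exists_cl (binf (FL.cl '' V))
    rw [← hu, FL.cl_le]
    apply QT_sound t V' hV' u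
    intro v' hv'
    obtain ⟨v, hv, h1⟩ := h v' hv'
    rw [← FL.cl_le, hu]
    exact (binf_le (hV.image _) ⟨v, hv, rfl⟩).trans (FL.cl_le.2 h1)

theorem cov_of_le {V : Set (Tm X)} (hV : V.Finite) (hVn : V.Nonempty) :
    ∀ t : Tm X, FL.cl t ≤ bsup (FL.cl '' V) → Cov (fun s t => Wle s t) JT t V := by
  intro t
  induction t with
  | var x =>
    intro h
    rcases prime_fin (x := FL.gen x) (E := fun _ => False) (fun _ _ h _ => h)
      (fun c d hcd => Or.inr (FL.gen_prime hcd)) (hV.image _) (hVn.image _) h with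
      h1 | ⟨_, ⟨v, hv, rfl⟩, h1⟩
    · exact h1.elim
    · exact Or.inl ⟨v, hv, FL.cl_le.1 h1⟩
  | sup s t ihs iht =>
    intro h
    rw [FL.cl_sup] at h
    have a1 : ∃ V₁ ∈ insert {s} (JT s), ∀ v' ∈ V₁, ∃ v ∈ V, Wle v' v := by
      rcases ihs (le_sup_left.trans h) with ⟨v, hv, h1⟩ | ⟨V', hV', h1⟩
      · exact ⟨{s}, Or.inl rfl, by rintro v' rfl; exact ⟨v, hv, h1⟩⟩
      · exact ⟨V', Or.inr hV', h1⟩
    have a2 : ∃ V₁ ∈ insert {t} (JT t), ∀ v' ∈ V₁, ∃ v ∈ V, Wle v' v := by
      rcases iht (le_sup_right.trans h) with ⟨v, hv, h1⟩ | ⟨V', hV', h1⟩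
      · exact ⟨{t}, Or.inl rfl, by rintro v' rfl; exact ⟨v, hv, h1⟩⟩
      · exact ⟨V', Or.inr hV', h1⟩
    obtain ⟨V₁, hV₁, h1⟩ := a1
    obtain ⟨V₂, hV₂, h2⟩ := a2
    refine Or.inr ⟨V₁ ∪ V₂, ⟨(V₁, V₂), ⟨hV₁, hV₂⟩, rfl⟩, ?_⟩
    rintro v' (hv' | hv')
    · exact h1 v' hv'
    · exact h2 v' hv'
  | inf s t ihs iht =>
    intro h
    rw [FL.cl_inf] at h
    rcases prime_fin (x := FL.cl s ⊓ FL.cl t) (E := fun c => FL.cl s ≤ c ∨ FL.cl t ≤ c)
        (fun c d hc hcd => hc.imp (fun h => h.trans hcd) (fun h => h.trans hcd))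
        (fun c d hcd => by
          rcases FL.whitman hcd with h1 | h1 | h1 | h1
          · exact Or.inl (Or.inl h1)
          · exact Or.inl (Or.inr h1)
          · exact Or.inr (Or.inl h1)
          · exact Or.inr (Or.inr h1)) (hV.image _) (hVn.image _) h with
          (h1 | h1) | ⟨_, ⟨v, hv, rfl⟩, h1⟩
    · rcases ihs h1 with ⟨v, hv, h2⟩ | ⟨V', hV', h2⟩
      · exact Or.inl ⟨v, hv, .inf_le_left h2⟩
      · exact Or.inr ⟨V', Or.inl hV', h2⟩
    · rcases iht h1 with ⟨v, hv, h2⟩ | ⟨V', hV', h2⟩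
      · exact Or.inl ⟨v, hv, .inf_le_right h2⟩
      · exact Or.inr ⟨V', Or.inr hV', h2⟩
    · exact Or.inl ⟨v, hv, FL.cl_le.1 h1⟩

theorem cov_of_le' {V : Set (Tm X)} (hV : V.Finite) (hVn : V.Nonempty) :
    ∀ t : Tm X, binf (FL.cl '' V) ≤ FL.cl t → Cov (fun s t => Wle t s) QT t V := by
  intro t
  induction t with
  | var x =>
    intro h
    rcases prime_fin' (x := FL.gen x) (E := fun _ => False) (fun _ _ h _ => h)
      (fun c d hcd => Or.inr (gen_prime' hcd)) (hV.image _) (hVn.image _) h with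
      h1 | ⟨_, ⟨v, hv, rfl⟩, h1⟩
    · exact h1.elim
    · exact Or.inl ⟨v, hv, FL.cl_le.1 h1⟩
  | inf s t ihs iht =>
    intro h
    rw [FL.cl_inf] at h
    have a1 : ∃ V₁ ∈ insert {s} (QT s), ∀ v' ∈ V₁, ∃ v ∈ V, Wle v v' := by
      rcases ihs (h.trans inf_le_left) with ⟨v, hv, h1⟩ | ⟨V', hV', h1⟩
      · exact ⟨{s}, Or.inl rfl, by rintro v' rfl; exact ⟨v, hv, h1⟩⟩
      · exact ⟨V', Or.inr hV', h1⟩
    have a2 : ∃ V₁ ∈ insert {t} (QT t), ∀ v' ∈ V₁, ∃ v ∈ V, Wle v v' := by
      rcases iht (h.trans inf_le_right) with ⟨v, hv, h1⟩ | ⟨V', hV', h1⟩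
      · exact ⟨{t}, Or.inl rfl, by rintro v' rfl; exact ⟨v, hv, h1⟩⟩
      · exact ⟨V', Or.inr hV', h1⟩
    obtain ⟨V₁, hV₁, h1⟩ := a1
    obtain ⟨V₂, hV₂, h2⟩ := a2
    refine Or.inr ⟨V₁ ∪ V₂, ⟨(V₁, V₂), ⟨hV₁, hV₂⟩, rfl⟩, ?_⟩
    rintro v' (hv' | hv')
    · exact h1 v' hv'
    · exact h2 v' hv'
  | sup s t ihs iht =>
    intro h
    rw [FL.cl_sup] at h
    rcases prime_fin' (x := FL.cl s ⊔ FL.cl t) (E := fun c => c ≤ FL.cl s ∨ c ≤ FL.cl t)
        (fun c d hc hcd => hc.imp (fun h => hcd.trans h) (fun h => hcd.trans h))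
        (fun c d hcd => by
          rcases FL.whitman hcd with h1 | h1 | h1 | h1
          · exact Or.inr (Or.inl h1)
          · exact Or.inr (Or.inr h1)
          · exact Or.inl (Or.inl h1)
          · exact Or.inl (Or.inr h1)) (hV.image _) (hVn.image _) h with
          (h1 | h1) | ⟨_, ⟨v, hv, rfl⟩, h1⟩
    · rcases ihs h1 with ⟨v, hv, h2⟩ | ⟨V', hV', h2⟩
      · exact Or.inl ⟨v, hv, .le_sup_left h2⟩
      · exact Or.inr ⟨V', Or.inl hV', h2⟩
    · rcases iht h1 with ⟨v, hv, h2⟩ | ⟨V', hV', h2⟩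
      · exact Or.inl ⟨v, hv, .le_sup_right h2⟩
      · exact Or.inr ⟨V', Or.inr hV', h2⟩
    · exact Or.inl ⟨v, hv, FL.cl_le.1 h1⟩

theorem cl_le_of_JT {t : Tm X} {V : Set (Tm X)} (hV : V ∈ JT t) :
    FL.cl t ≤ bsup (FL.cl '' V) := by
  have hf : V.Finite := (subt_finite t).subset (JT_sub t V hV)
  exact le_of_cov hf (Or.inr ⟨V, hV, fun v hv => ⟨v, hv, Tm.Wle_refl v⟩⟩)

theorem cl_le_of_QT {t : Tm X} {V : Set (Tm X)} (hV : V ∈ QT t) :
    binf (FL.cl '' V) ≤ FL.cl t := by
  have hf : V.Finite := (subt_finite t).subset (QT_sub t V hV)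
  exact le_of_cov' hf (Or.inr ⟨V, hV, fun v hv => ⟨v, hv, Tm.Wle_refl v⟩⟩)

end

/-- The system of all terms. -/
theorem core_terms {L : Type u} [Lattice L] [Nonempty (FL X)] (φ : LatticeHom L (FL X))
    (hφ : Function.Injective φ) (τ : L → Tm X) (hτ : ∀ a, FL.cl (τ a) = φ a) :
    Core (fun s t : Tm X => Wle s t) τ JT QT Tm.size Tm.size := by
  have hle : ∀ a b, φ a ≤ φ b ↔ a ≤ b := fun a b => by
    constructor
    · intro h
      have : φ (a ⊔ b) = φ b := by rw [map_sup]; exact sup_eq_right.2 h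
      exact sup_eq_right.1 (hφ this)
    · intro h
      exact OrderHomClass.mono φ h
  have hfJ : ∀ {t : Tm X} {V : Set (Tm X)}, V ∈ JT t → V.Finite := fun {t V} h =>
    (subt_finite t).subset (JT_sub t V h)
  have hfQ : ∀ {t : Tm X} {V : Set (Tm X)}, V ∈ QT t → V.Finite := fun {t V} h =>
    (subt_finite t).subset (QT_sub t V h)
  constructor
  · exact Tm.Wle_refl
  · exact fun t s r h1 h2 => Tm.Wle_trans h1 h2
  · intro a b
    rw [← hle, ← hτ, ← hτ]
    exact FL.cl_le.symm
  · constructor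
    · exact JT_fin
    · exact fun t V hV => ⟨hfJ hV, JT_nonempty t V hV⟩
    · exact JT_rank
    · exact fun t' t h V hV => cov_of_le (hfJ hV) (JT_nonempty t V hV) t'
        ((FL.cl_le.2 h).trans (cl_le_of_JT hV))
    · intro a b
      apply cov_of_le (Set.toFinite _) ⟨τ a, Or.inl rfl⟩
      rw [Set.image_pair, bsup_pair, hτ, hτ, hτ, map_sup]
    · exact JT_sound
  · constructor
    · exact QT_fin
    · exact fun t V hV => ⟨hfQ hV, QT_nonempty t V hV⟩
    · exact QT_rank
    · exact fun t' t h V hV => cov_of_le' (hfQ hV) (QT_nonempty t V hV) t'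
        ((cl_le_of_QT hV).trans (FL.cl_le.2 h))
    · intro a b
      apply cov_of_le' (Set.toFinite _) ⟨τ (OrderDual.ofDual a), Or.inl rfl⟩
      rw [Set.image_pair, binf_pair, hτ, hτ, hτ]
      change _ ≤ φ (OrderDual.ofDual a ⊓ OrderDual.ofDual b)
      rw [map_inf]
    · exact QT_sound
  · intro t W hW V hV
    have h1 := (cl_le_of_QT hW).trans (cl_le_of_JT hV)
    rcases fl_whitman ((hfQ hW).image _) ((QT_nonempty t W hW).image _) ((hfJ hV).image _)
      ((JT_nonempty t V hV).image _) h1 with ⟨_, ⟨w, hw, rfl⟩, h2⟩ | ⟨_, ⟨v, hv, rfl⟩, h2⟩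
    · exact Or.inl ⟨w, hw, cov_of_le (hfJ hV) (JT_nonempty t V hV) w h2⟩
    · exact Or.inr ⟨v, hv, cov_of_le' (hfQ hW) (QT_nonempty t W hW) v h2⟩

end Pool.Agent.H74.FS
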