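import Pool.Agent.H74.FS.Core
import Pool.Agent.H74.FS.Nec
import Pool.Agent.H74.FS.Local
import Pool.Agent.H48.FreeSub.Necessity

/-!
# The criteria
-/

namespace Pool.Agent.H74.FS

open Pool.Agent.H48.FreeSub

universe u v w

theorem NodeSystem.embeds {L : Type u} [Lattice L] (N : NodeSystem L) : EmbedsInFree L := by
  classical
  choose C hC using fun t => exists_dep (N.clopen t)
  have hcore : Core (fun s t => N.K s ⊆ N.K t) N.node N.J N.Q N.rJ N.rQ :=
    { refl := fun t => Set.Subset.refl _
      trans := fun t s r h1 h2 => h1.trans h2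
      node_le := N.node_le
      joinSide := N.joinSide
      meetSide := N.meetSide
      whitman := N.whitman }
  exact hcore.embeds (dnf_clopen N.K C hC)

theorem exists_nodeSystem {L : Type u} [Lattice L] (h : EmbedsInFree L) :
    HasFinitaryNodeSystem L := by
  classical
  obtain ⟨X, φ, hφ⟩ := embedsInFree_iff.1 h
  rcases isEmpty_or_nonempty (FL X) with hX | hX
  · have hL : IsEmpty L := ⟨fun a => hX.elim (φ a)⟩
    refine ⟨{ X := PUnit
              T := L
              K := fun a => hL.elim a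
              node := id
              J := fun a => hL.elim a
              Q := fun a => hL.elim a
              rJ := fun a => hL.elim a
              rQ := fun a => hL.elim a
              clopen := fun a => hL.elim a
              node_le := fun a => hL.elim a
              joinSide :=
                { fin := fun a => hL.elim a
                  mem := fun a => hL.elim a
                  rank := fun a => hL.elim a
                  mono := fun a => hL.elim a
                  join := fun a => hL.elim a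
                  sound := fun a => hL.elim a }
              meetSide :=
                { fin := fun a => hL.elim a
                  mem := fun a => hL.elim a
                  rank := fun a => hL.elim a
                  mono := fun a => hL.elim a
                  join := fun a => hL.elim (OrderDual.ofDual a)
                  sound := fun a => hL.elim a }
              whitman := fun a => hL.elim a }, fun a => hL.elim a⟩
  · choose τ hτ using fun a => FL.exists_cl (φ a)
    have h := core_terms φ hφ τ hτ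
    have e1 : (fun s t : Tm X => dset (YT s) ⊆ dset (YT t)) = fun s t => Wle s t := by
      funext s t
      exact propext (dnf_terms.dset_subset_iff s t)
    have e2 : (fun s t : Tm X => dset (YT t) ⊆ dset (YT s)) = fun s t => Wle t s := by
      funext s t
      exact propext (dnf_terms.dset_subset_iff t s)
    refine ⟨{ X := LabT X
              T := Tm X
              K := fun t => dset (YT t)
              node := τ
              J := JT
              Q := QT
              rJ := Tm.size
              rQ := Tm.size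
              clopen := fun t => isClopen_dset (dnf_terms.Yfin t) (dnf_terms.Ymem t)
              node_le := fun a b => (dnf_terms.dset_subset_iff _ _).trans (h.node_le a b)
              joinSide := by rw [e1]; exact h.joinSide
              meetSide := by rw [e2]; exact h.meetSide
              whitman := by rw [e1, e2]; exact h.whitman }, ?_⟩
    intro a
    exact ⟨subt (τ a), subt_finite _, mem_subt _, fun t ht =>
      ⟨fun V hV => (JT_sub t V hV).trans (subt_trans _ _ ht),
        fun V hV => (QT_sub t V hV).trans (subt_trans _ _ ht)⟩⟩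

/-- **The general criterion.** -/
theorem tfae_embeds (L : Type u) [Lattice L] :
    List.TFAE [EmbedsInFree L, HasNodeSystem L, HasFinitaryNodeSystem L, LocallyBounded L] := by
  tfae_have 1 → 3 := exists_nodeSystem
  tfae_have 3 → 2 := fun ⟨N, _⟩ => ⟨N⟩
  tfae_have 2 → 1 := fun ⟨N⟩ => N.embeds
  tfae_have 1 → 4 := fun h => by
    obtain ⟨X, φ, hφ⟩ := embedsInFree_iff.1 h
    exact locallyBounded_of_embedding φ hφ
  tfae_have 4 → 1 := embedsInFree_of_locallyBounded
  tfae_finish

/-! ### Ordered sets -/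

theorem Dnf.dfl_le_iff {T : Type u} {le : T → T → Prop} (hrefl : ∀ t, le t t)
    (htrans : ∀ t s r, le t s → le s r → le t r) {Z : Type u} [Nonempty (FL Z)]
    {A B : T → Set Z} {Y : T → Set (Set Z)} (hD : Dnf le A B Y) (t t' : T) :
    dfl (Y t) ≤ dfl (Y t') ↔ le t t' := by
  refine ⟨fun hle => ?_, fun htt' => hD.dfl_mono htt'⟩
  obtain ⟨C, _, e, he, _, _⟩ := exists_completion le hrefl htrans
  let f : LatticeHom (FL Z) C := FL.lift (fun z => sSup (e '' {t | z ∈ A t}))
  have hf : ∀ t, f (dfl (Y t)) = e t := by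
    intro t
    apply hD.map_dfl
    · intro z hz
      change e t ≤ sSup (e '' {t | z ∈ A t})
      exact le_sSup ⟨t, hz, rfl⟩
    · intro z hz
      change sSup (e '' {t | z ∈ A t}) ≤ e t
      apply sSup_le
      rintro _ ⟨r, hr, rfl⟩
      rw [he]
      exact hD.sep r t ⟨z, hr, hz⟩
  rw [← he, ← hf, ← hf]
  exact OrderHomClass.mono f hle

theorem orderEmbedsFree_of_dnf {P : Type u} [Preorder P] {Z : Type u}
    {A B : P → Set Z} {Y : P → Set (Set Z)} (hD : Dnf (fun p q : P => p ≤ q) A B Y) :
    OrderEmbedsFree P := by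
  rcases isEmpty_or_nonempty P with hP | ⟨⟨p0⟩⟩
  · exact ⟨P, FL P, inferInstance, FL.gen, FL.isFree, fun p => hP.elim p, fun p => hP.elim p⟩
  · obtain ⟨z0, _, _⟩ := hD.meet p0 _ (hD.Amem p0)
    have : Nonempty (FL Z) := ⟨FL.gen z0⟩
    exact ⟨Z, FL Z, inferInstance, FL.gen, FL.isFree, fun p => dfl (Y p),
      hD.dfl_le_iff (fun t => le_refl t) (fun t s r => le_trans)⟩

theorem orderEmbedsClopen_of_dnf {P : Type u} [Preorder P] {Z : Type u}
    {A B : P → Set Z} {Y : P → Set (Set Z)} (hD : Dnf (fun p q : P => p ≤ q) A B Y) :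
    OrderEmbedsClopen P :=
  ⟨Z, fun p => dset (Y p), fun p => isClopen_dset (hD.Yfin p) (hD.Ymem p), hD.dset_subset_iff⟩

theorem orderEmbedsFree_of_clopen {P : Type u} [Preorder P] (h : OrderEmbedsClopen P) :
    OrderEmbedsFree P := by
  obtain ⟨X, K, hK, hle⟩ := h
  choose C hC using fun t => exists_dep (hK t)
  have hD := dnf_clopen K C hC
  simp only [hle] at hD
  exact orderEmbedsFree_of_dnf hD

theorem dnf_comap {P : Type u} {R : Type v} {le : R → R → Prop} {Z : Type w} {A B : R → Set Z}
    {Y : R → Set (Set Z)} (hD : Dnf le A B Y) (f : P → R) :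
    Dnf (fun p q => le (f p) (f q)) (fun p => A (f p)) (fun p => B (f p)) (fun p => Y (f p)) :=
  { Yfin := fun p => hD.Yfin (f p)
    Ymem := fun p => hD.Ymem (f p)
    Amem := fun p => hD.Amem (f p)
    meet := fun p => hD.meet (f p)
    mono := fun p q => hD.mono (f p) (f q)
    sep := fun p q => hD.sep (f p) (f q) }

theorem orderEmbedsClopen_of_free {P : Type u} [Preorder P] (h : OrderEmbedsFree P) :
    OrderEmbedsClopen P := by
  obtain ⟨X, F, _, ι, hι, f, hf⟩ := h
  obtain ⟨ψ, hψ⟩ := exists_embedding_FL ι hι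
  have hψle : ∀ a b, ψ a ≤ ψ b ↔ a ≤ b := fun a b => by
    constructor
    · intro h
      have : ψ (a ⊔ b) = ψ b := by rw [map_sup]; exact sup_eq_right.2 h
      exact sup_eq_right.1 (hψ this)
    · intro h
      exact OrderHomClass.mono ψ h
  choose τ hτ using fun p => FL.exists_cl (ψ (f p))
  have hD := dnf_comap (dnf_terms (X := X)) τ
  have e : (fun p q : P => Wle (τ p) (τ q)) = fun p q => p ≤ q := by
    funext p q
    rw [← FL.cl_le, hτ, hτ, hψle, hf]
  rw [e] at hD
  exact orderEmbedsClopen_of_dnf hD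

theorem dnf_supported {R : Type u} [Preorder R] {D : R → Set R} (h1 : ∀ r, (D r).Finite)
    (h2 : ∀ r, r ∈ D r) (h3 : ∀ r, ∀ s ∈ D r, D s ⊆ D r)
    (h4 : ∀ r s, r ≤ s → ∃ t ∈ D r ∩ D s, r ≤ t ∧ t ≤ s) :
    Dnf (fun r s : R => r ≤ s) (fun r => {t | t ∈ D r ∧ r ≤ t}) (fun r => {t | t ∈ D r ∧ t ≤ r})
      (fun r => (fun t => {s | s ∈ D t ∧ t ≤ s}) '' {t | t ∈ D r ∧ t ≤ r}) := by
  constructor
  · intro r
    exact ((h1 r).subset (fun t ht => ht.1)).image _
  · rintro r _ ⟨t, _, rfl⟩
    exact (h1 t).subset (fun s hs => hs.1)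
  · intro r
    exact ⟨r, ⟨h2 r, le_rfl⟩, rfl⟩
  · rintro r _ ⟨t, ⟨ht1, ht2⟩, rfl⟩
    exact ⟨t, ⟨h2 t, le_rfl⟩, ht1, ht2⟩
  · rintro p q hpq _ ⟨t, ⟨ht1, ht2⟩, rfl⟩
    obtain ⟨s, ⟨hs1, hs2⟩, hs3, hs4⟩ := h4 t q (ht2.trans hpq)
    refine ⟨_, ⟨s, ⟨hs2, hs4⟩, rfl⟩, ?_⟩
    rintro x ⟨hx1, hx2⟩
    exact ⟨h3 t s hs1 hx1, hs3.trans hx2⟩
  · rintro p q ⟨t, ht1, ht2⟩
    exact ht1.2.trans ht2.2

theorem orderEmbedsClopen_of_supported {P : Type u} [Preorder P] (h : OrderEmbedsSupported P) :
    OrderEmbedsClopen P := by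
  obtain ⟨R, _, D, f, h1, h2, h3, h4, h5⟩ := h
  have hD := dnf_comap (dnf_supported h1 h2 h3 h4) f
  simp only [h5] at hD
  exact orderEmbedsClopen_of_dnf hD

theorem orderEmbedsSupported_of_clopen {P : Type u} [Preorder P] (h : OrderEmbedsClopen P) :
    OrderEmbedsSupported P := by
  classical
  obtain ⟨X, K, hK, hle⟩ := h
  choose C hC using fun t => exists_dep (hK t)
  refine ⟨{z : Lab X // Dep z.2 z.1}, Preorder.lift (fun z => z.1.2),
    fun z => {w | w.1.1 ⊆ z.1.1}, fun p => ⟨(C p, K p), hC p⟩, ?_, ?_, ?_, ?_, ?_⟩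
  · rintro ⟨⟨E, U⟩, hE⟩
    refine Set.Finite.of_finite_image (f := Subtype.val) ?_ Subtype.val_injective.injOn
    refine (finite_lab E).subset ?_
    rintro _ ⟨⟨w, hw⟩, hw1, rfl⟩
    exact ⟨hw1, hw⟩
  · exact fun r => Finset.Subset.refl _
  · exact fun r s hs t ht => Finset.Subset.trans ht hs
  · rintro ⟨⟨E, U⟩, hE⟩ ⟨⟨F, V⟩, hF⟩ hUV
    exact ⟨⟨(E ∩ F, proj (E ∩ F) U), dep_proj _ _⟩,
      ⟨Finset.inter_subset_left, Finset.inter_subset_right⟩, subset_proj _ _,
      proj_subset hE hF hUV⟩
  · exact fun p q => hle p q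

/-- **Order theorem.** -/
theorem tfae_order (P : Type u) [Preorder P] :
    List.TFAE [OrderEmbedsFree P, OrderEmbedsClopen P, OrderEmbedsSupported P] := by
  tfae_have 1 → 2 := orderEmbedsClopen_of_free
  tfae_have 2 → 1 := orderEmbedsFree_of_clopen
  tfae_have 2 → 3 := orderEmbedsSupported_of_clopen
  tfae_have 3 → 2 := orderEmbedsClopen_of_supported
  tfae_finish

/-! ### Lattices with join refinements inside the lattice -/

theorem whitmanW_of_embeds {L : Type u} [Lattice L] (h : EmbedsInFree L) : WhitmanW L :=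
  (necessity h).1

theorem orderEmbedsFree_of_embeds {L : Type u} [Lattice L] (h : EmbedsInFree L) :
    OrderEmbedsFree L := by
  obtain ⟨X, F, _, ι, hι, φ, hφ⟩ := h
  refine ⟨X, F, _, ι, hι, φ, fun a b => ?_⟩
  constructor
  · intro h
    have : φ (a ⊔ b) = φ b := by rw [map_sup]; exact sup_eq_right.2 h
    exact sup_eq_right.1 (hφ this)
  · intro h
    exact OrderHomClass.mono φ h

/-- One half of a node system from join refinements in the lattice. -/
theorem half_of_refinement {L : Type u} [Lattice L] {J : L → Set (Set L)} {r : L → ℕ}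
    (h1 : ∀ a, (J a).Finite)
    (h2 : ∀ a, ∀ V ∈ J a, V.Finite ∧ V.Nonempty ∧ (∀ v ∈ V, r v < r a) ∧
      ∀ c, (∀ v ∈ V, v ≤ c) → a ≤ c)
    (h3 : ∀ (a : L) (U : Finset L) (hU : U.Nonempty), a ≤ U.sup' hU id →
      (∃ u ∈ U, a ≤ u) ∨ ∃ V ∈ J a, ∀ v ∈ V, ∃ u ∈ U, v ≤ u) :
    Half (fun s t : L => s ≤ t) id J r ∧ ∀ (a : L) (V : Set L), V.Finite → V.Nonempty →
      (∀ c, (∀ v ∈ V, v ≤ c) → a ≤ c) → Cov (fun s t : L => s ≤ t) J a V := by
  classical
  have key : ∀ (a : L) (V : Set L), V.Finite → V.Nonempty →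
      (∀ c, (∀ v ∈ V, v ≤ c) → a ≤ c) → Cov (fun s t : L => s ≤ t) J a V := by
    intro a V hV hVn hc
    have hn : hV.toFinset.Nonempty := by rwa [Set.Finite.toFinset_nonempty]
    rcases h3 a hV.toFinset hn (hc _ (fun v hv =>
      Finset.le_sup' id (hV.mem_toFinset.2 hv))) with ⟨u, hu, hau⟩ | ⟨V', hV', hr⟩
    · exact Or.inl ⟨u, hV.mem_toFinset.1 hu, hau⟩
    · refine Or.inr ⟨V', hV', fun v hv => ?_⟩
      obtain ⟨u, hu, hvu⟩ := hr v hv
      exact ⟨u, hV.mem_toFinset.1 hu, hvu⟩
  refine ⟨⟨h1, fun t V hV => ⟨(h2 t V hV).1, (h2 t V hV).2.1⟩,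
    fun t V hV => (h2 t V hV).2.2.1, ?_, ?_, fun t V hV => (h2 t V hV).2.2.2⟩, key⟩
  · intro t' t htt' V hV
    obtain ⟨hf, hn, _, hs⟩ := h2 t V hV
    exact key t' V hf hn (fun c hc => htt'.trans (hs c hc))
  · intro a b
    exact key _ _ (Set.toFinite _) ⟨a, Or.inl rfl⟩
      (fun c hc => sup_le (hc a (Or.inl rfl)) (hc b (Or.inr rfl)))

/-- **Lattices with finite join and meet refinements.** -/
theorem embeds_iff_of_refinement {L : Type u} [Lattice L] (hJ : FiniteJoinRefinement L)
    (hQ : FiniteJoinRefinement Lᵒᵈ) :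
    EmbedsInFree L ↔ WhitmanW L ∧ OrderEmbedsClopen L := by
  classical
  refine ⟨fun h => ⟨whitmanW_of_embeds h,
    orderEmbedsClopen_of_free (orderEmbedsFree_of_embeds h)⟩, ?_⟩
  rintro ⟨hW, X, K, hK, hle⟩
  obtain ⟨J, r, h1, h2, h3⟩ := hJ
  obtain ⟨Q, r', h1', h2', h3'⟩ := hQ
  obtain ⟨hj, kj⟩ := half_of_refinement h1 h2 h3
  obtain ⟨hq, kq⟩ := half_of_refinement h1' h2' h3'
  have hcore : Core (L := L) (T := L) (fun s t : L => s ≤ t) id J Q r r' :=
    { refl := fun t => le_rfl
      trans := fun t s r h1 h2 => le_trans h1 h2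
      node_le := fun a b => Iff.rfl
      joinSide := hj
      meetSide := hq
      whitman := by
        intro t W hWt V hVt
        obtain ⟨hVf, hVn, _, hVs⟩ := h2 t V hVt
        obtain ⟨hWf, hWn, _, hWs⟩ := h2' t W hWt
        let S : Finset L := Set.Finite.toFinset (s := (W : Set L)) hWf
        let R : Finset L := hVf.toFinset
        have hS : S.Nonempty := (Set.Finite.toFinset_nonempty (s := (W : Set L)) hWf).2 hWn
        have hR : R.Nonempty := (Set.Finite.toFinset_nonempty hVf).2 hVn
        have hWs' : ∀ c : L, (∀ w ∈ (W : Set L), c ≤ w) → c ≤ t := hWs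
        have i1 : S.inf' hS id ≤ t := hWs' (S.inf' hS id)
          (fun w hw => Finset.inf'_le id ((Set.Finite.mem_toFinset (s := (W : Set L)) hWf).2 hw))
        have i2 : t ≤ R.sup' hR id := hVs _
          (fun v hv => Finset.le_sup' id ((Set.Finite.mem_toFinset hVf).2 hv))
        rcases hW S R hS hR (i1.trans i2) with ⟨a, ha, h⟩ | ⟨b, hb, h⟩
        · refine Or.inl ⟨a, (Set.Finite.mem_toFinset (s := (W : Set L)) hWf).1 ha, ?_⟩
          apply kj a V hVf hVn
          intro c hc
          refine h.trans (Finset.sup'_le hR id fun v hv => hc v ?_)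
          exact (Set.Finite.mem_toFinset hVf).1 hv
        · refine Or.inr ⟨b, (Set.Finite.mem_toFinset hVf).1 hb, ?_⟩
          apply kq b W hWf hWn
          intro c hc
          refine le_trans (α := L) (Finset.le_inf' hS id fun v hv => hc v ?_) h
          exact (Set.Finite.mem_toFinset (s := (W : Set L)) hWf).1 hv }
  choose C hC using fun t => exists_dep (hK t)
  have hD := dnf_clopen K C hC
  simp only [hle] at hD
  exact hcore.embeds hD

end Pool.Agent.H74.FS
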